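import Pool.Agent.N68.QP.Uniq
import Pool.Agent.R640.QP

set_option autoImplicit false

/-! The group of the permutations of `ℤ` which are translations near `-∞` has exactly one
quasi-parabolic structure. -/

namespace Pool.Agent.N68.QP

open Equiv Pool.Agent.R640 Pointwise

/-- `g` and `h` have the same attracting point. -/
def SameEnd {G : Type*} [Group G] (S : Set G) (g h : G) : Prop :=
  SamePoint S (fun n => g ^ n) (fun n => h ^ n)

/-- The hyperbolic length function of a hyperbolic generating set. -/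
noncomputable def ofHyp {G : Type*} [Group G] {S : Set G} (hS : Subgroup.closure S = ⊤) {δ : ℝ}
    (hδ : ∀ x y z : G, min (gp S x y) (gp S y z) - δ ≤ gp S x z) : HLen G where
  l g := len S g
  nonneg g := Nat.cast_nonneg _
  one := by rw [len_one]; simp
  inv g := by rw [len_inv hS]
  mul_le g h := by exact_mod_cast len_mul_le hS g h
  δ := max δ 0
  δ_nonneg := le_max_right _ _
  hyp x y z := by
    have h := hδ x y z
    have h1 := le_max_left δ 0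
    unfold gp at h
    linarith

theorem ofHyp_gp {G : Type*} [Group G] {S : Set G} (hS : Subgroup.closure S = ⊤) {δ : ℝ}
    (hδ : ∀ x y z : G, min (gp S x y) (gp S y z) - δ ≤ gp S x z) (x y : G) :
    (ofHyp hS hδ).gp x y = gp S x y := rfl

theorem isLen {G : Type*} [Group G] (L : HLen G) : IsLen L.l := ⟨L.inv, L.mul_le⟩

theorem mul_pow_form {b : Gz} (hb : b ∈ Bz) (e n : ℕ) :
    ∃ b' ∈ Bz, (b * tz ^ e) ^ n = b' * tz ^ (e * n) := by
  induction n with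
  | zero => exact ⟨1, Bz.one_mem, by simp⟩
  | succ n ih =>
    obtain ⟨b', hb', h⟩ := ih
    refine ⟨b' * (tz ^ (e * n) * b * (tz ^ (e * n))⁻¹), Bz.mul_mem hb' (conj_mem hb _), ?_⟩
    rw [pow_succ, h, mul_add, mul_one, pow_add]
    group

theorem pow_form (g : Gz) (hg : 0 ≤ sh g) : ∃ m : ℕ, ∀ n : ℕ, ∃ b ∈ Bz,
    g ^ n = (tz ^ m)⁻¹ * b * tz ^ m * tz ^ ((sh g).toNat * n) := by
  obtain ⟨N, hN⟩ := sh_spec g
  set m := (-N).toNat with hm
  set e := (sh g).toNat with he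
  refine ⟨m, fun n => ?_⟩
  have hb : tz ^ m * g * (tz ^ m)⁻¹ * (tz ^ e)⁻¹ ∈ Bz := by
    intro i hi
    rw [Subgroup.coe_mul, Perm.mul_apply, tz_pow_inv_apply, conj_apply, hN _ (by omega)]
    omega
  obtain ⟨b', hb', h⟩ := mul_pow_form hb e n
  refine ⟨b', hb', ?_⟩
  rw [inv_mul_cancel_right] at h
  have h1 : (tz ^ m * g * (tz ^ m)⁻¹) ^ n = tz ^ m * g ^ n * (tz ^ m)⁻¹ := by
    rw [_root_.conj_pow]
  rw [h1] at h
  have h2 : g ^ n = (tz ^ m)⁻¹ * (b' * tz ^ (e * n)) * tz ^ m := by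
    rw [← h]
    group
  rw [h2]
  have h3 : tz ^ (e * n) * tz ^ m = tz ^ m * tz ^ (e * n) := by
    rw [← pow_add, ← pow_add, add_comm]
  calc (tz ^ m)⁻¹ * (b' * tz ^ (e * n)) * tz ^ m = (tz ^ m)⁻¹ * b' * (tz ^ (e * n) * tz ^ m) := by
        group
    _ = _ := by rw [h3]; group

theorem sh_inv (g : Gz) : sh g⁻¹ = -sh g := by
  have := Az.e_inv g
  simpa only [Az_e] using this

/-- The translation is loxodromic if something is. -/
theorem lox_tz (L : HLen Gz) {C : ℝ} (hC : ∀ g ∈ Bz, L.l g ≤ C) {g : Gz} {c : ℝ} (hc : 0 < c)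
    (hg : ∀ n : ℕ, c * n ≤ L.l (g ^ n)) :
    sh g ≠ 0 ∧ ∃ c' : ℝ, 0 < c' ∧ ∀ n : ℕ, c' * n ≤ L.l (tz ^ n) := by
  wlog hs : 0 ≤ sh g generalizing g with H
  · have h1 := H (g := g⁻¹) (fun n => by rw [inv_pow, L.inv]; exact hg n)
      (by rw [sh_inv]; omega)
    rw [sh_inv] at h1
    exact ⟨by have := h1.1; omega, h1.2⟩
  obtain ⟨m, hm⟩ := pow_form g hs
  set e := (sh g).toNat with he
  set T : ℝ := 2 * L.l (tz ^ m) + C with hT
  have key : ∀ n : ℕ, c * n ≤ T + L.l (tz ^ (e * n)) := by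
    intro n
    obtain ⟨b, hb, h⟩ := hm n
    have h1 := hg n
    rw [h] at h1
    have h2 := L.mul_le ((tz ^ m)⁻¹ * b * tz ^ m) (tz ^ (e * n))
    have h3 := L.mul_le ((tz ^ m)⁻¹ * b) (tz ^ m)
    have h4 := L.mul_le (tz ^ m)⁻¹ b
    rw [L.inv] at h4
    have h5 := hC b hb
    linarith
  have he0 : e ≠ 0 := by
    intro h0
    obtain ⟨n, hn⟩ := exists_nat_gt (T / c)
    have h1 := key n
    rw [h0, zero_mul, pow_zero, L.one, add_zero] at h1
    rw [div_lt_iff₀ hc] at hn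
    linarith
  have he1 : (0 : ℝ) < e := by
    have : 0 < e := Nat.pos_of_ne_zero he0
    exact_mod_cast this
  refine ⟨by omega, c / e, by positivity, fun N => ?_⟩
  by_contra hlt
  push Not at hlt
  set ε := c / e * N - L.l (tz ^ N) with hε
  have hε0 : 0 < ε := by linarith
  obtain ⟨k, hk⟩ := exists_nat_gt (T / (e * ε))
  have h1 := key (k * N)
  have h2 : L.l (tz ^ (e * (k * N))) ≤ (e * k : ℕ) * L.l (tz ^ N) := by
    have h3 := L.pow_le (tz ^ N) (e * k)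
    rw [← pow_mul] at h3
    have e1 : N * (e * k) = e * (k * N) := by ring
    rwa [e1] at h3
  rw [div_lt_iff₀ (by positivity)] at hk
  push_cast at h1 h2
  have h3 : L.l (tz ^ N) = c / e * N - ε := by rw [hε]; ring
  rw [h3] at h2
  have h4 : (e : ℝ) * k * (c / e * N - ε) = c * (k * N) - k * (e * ε) := by
    field_simp
  rw [h4] at h2
  linarith

/-- If the kernel is bounded then all loxodromic elements have the same fixed points. -/
theorem same_of_bounded (D : Dat) {C₁ : ℝ}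
    (hH : ∀ κ ∈ Bz, ∀ n : ℕ, D.L.l ((tz ^ n)⁻¹ * κ * tz ^ n) ≤ C₁) {g h : Gz} (hg : 0 < sh g)
    (hh : 0 < sh h) :
    (∀ K : ℝ, ∃ N : ℕ, ∀ n m : ℕ, N ≤ n → N ≤ m → K ≤ D.L.gp (g ^ n) (h ^ m)) ∧
    (∀ K : ℝ, ∃ N : ℕ, ∀ n m : ℕ, N ≤ n → N ≤ m → K ≤ D.L.gp (g⁻¹ ^ n) (h⁻¹ ^ m)) := by
  have form : ∀ g : Gz, 0 < sh g → ∀ n : ℕ,
      (∃ x, D.L.l x ≤ C₁ ∧ g ^ n = tz ^ ((sh g).toNat * n) * x) ∧
      (∃ x, D.L.l x ≤ C₁ ∧ g⁻¹ ^ n = (tz ^ ((sh g).toNat * n))⁻¹ * x) := by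
    intro g hg n
    obtain ⟨m, hm⟩ := pow_form g hg.le
    obtain ⟨b, hb, h⟩ := hm n
    set e := (sh g).toNat * n
    refine ⟨⟨(tz ^ (m + e))⁻¹ * b * tz ^ (m + e), hH b hb _, ?_⟩,
      ⟨(tz ^ m)⁻¹ * b⁻¹ * tz ^ m, hH _ (Bz.inv_mem hb) _, ?_⟩⟩
    · rw [h]
      have h3 : tz ^ (m + e) = tz ^ e * tz ^ m := by rw [← pow_add, add_comm]
      have h4 : tz ^ (m + e) = tz ^ m * tz ^ e := by rw [← pow_add]
      have h5 : (tz ^ (m + e))⁻¹ = (tz ^ e)⁻¹ * (tz ^ m)⁻¹ := by rw [h4, mul_inv_rev]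
      rw [h5, h4]
      group
    · rw [inv_pow, h]
      group
  have gt : ∀ N i j : ℕ, N ≤ i → N ≤ j → D.c * N - D.E / 2 ≤ D.L.gp (tz ^ i) (tz ^ j) := by
    intro N i j hi hj
    have hi' : D.c * N ≤ D.c * i := mul_le_mul_of_nonneg_left (by exact_mod_cast hi) D.c0.le
    have hj' : D.c * N ≤ D.c * j := mul_le_mul_of_nonneg_left (by exact_mod_cast hj) D.c0.le
    rcases le_total i j with hij | hij
    · have h1 := D.gp_t hij
      have h2 := D.a_ge i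
      linarith
    · have h1 := D.gp_t' hij
      have h2 := D.a_ge j
      linarith
  have gt' : ∀ i j : ℕ, D.L.gp (tz ^ i)⁻¹ (tz ^ j)⁻¹ = D.L.gp (tz ^ i) (tz ^ j) := by
    intro i j
    unfold HLen.gp
    rw [D.L.inv, D.L.inv]
    have e1 : (tz ^ i)⁻¹⁻¹ * (tz ^ j)⁻¹ = ((tz ^ i)⁻¹ * tz ^ j)⁻¹ := by
      have : Commute (tz ^ i) (tz ^ j) := (Commute.refl tz).pow_pow i j
      rw [inv_inv, mul_inv_rev, inv_inv]
      exact this.inv_right.eq
    rw [e1, D.L.inv]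
  have fin : ∀ K : ℝ, ∃ N : ℕ, ∀ n m : ℕ, N ≤ n → N ≤ m →
      K + 2 * C₁ ≤ D.L.gp (tz ^ ((sh g).toNat * n)) (tz ^ ((sh h).toNat * m)) := by
    intro K
    obtain ⟨N, hN⟩ := exists_nat_ge ((K + 2 * C₁ + D.E / 2) / D.c)
    refine ⟨N, fun n m hn hm => ?_⟩
    have h2 : N ≤ (sh g).toNat * n :=
      hn.trans (Nat.le_mul_of_pos_left _ (by omega))
    have h3 : N ≤ (sh h).toNat * m :=
      hm.trans (Nat.le_mul_of_pos_left _ (by omega))
    have h1 := gt N ((sh g).toNat * n) ((sh h).toNat * m) h2 h3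
    rw [div_le_iff₀ D.c0] at hN
    have : (N : ℝ) * D.c = D.c * N := mul_comm _ _
    linarith
  constructor
  · intro K
    obtain ⟨N, hN⟩ := fin K
    refine ⟨N, fun n m hn hm => ?_⟩
    obtain ⟨x, hx, h1⟩ := (form g hg n).1
    obtain ⟨y, hy, h2⟩ := (form h hh m).1
    rw [h1, h2]
    have h3 := D.L.gp_mul_right (tz ^ ((sh g).toNat * n)) (tz ^ ((sh h).toNat * m)) x y
    have h4 := hN n m hn hm
    linarith
  · intro K
    obtain ⟨N, hN⟩ := fin K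
    refine ⟨N, fun n m hn hm => ?_⟩
    obtain ⟨x, hx, h1⟩ := (form g hg n).2
    obtain ⟨y, hy, h2⟩ := (form h hh m).2
    rw [h1, h2]
    have h3 := D.L.gp_mul_right (tz ^ ((sh g).toNat * n))⁻¹ (tz ^ ((sh h).toNat * m))⁻¹ x y
    rw [gt'] at h3
    have h4 := hN n m hn hm
    linarith

/-- The lengths with respect to the standard generating set are bounded by the given length
function. -/
theorem std_bound (D : Dat) {R₀ : ℝ} (hR : ∀ κ ∈ Bz, (κ : Perm ℤ) 0 ≠ 0 → ∀ a b : ℕ,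
      D.L.gp (tz ^ a) (κ * tz ^ b) ≤ R₀) (y : Gz) :
    D.c * (len Az.X y : ℝ) ≤ D.L.l y + D.C + 2 * |R₀| + D.c := by
  obtain ⟨h1, h2, h3⟩ := (Az.P_one_iff _ _).1 (Az.M_spec 1 y)
  have h4 := Az.len_le_F y
  unfold Asc.F at h4
  set m := Az.M 1 y with hm
  set e := Az.e y with he
  obtain ⟨i, hi⟩ := Int.eq_ofNat_of_zero_le h1
  obtain ⟨j, hj⟩ := Int.eq_ofNat_of_zero_le h2
  rw [hi] at h3
  rw [← hi, hj] at h3
  set b := Az.t ^ m * y * (Az.t ^ (j : ℤ))⁻¹ with hb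
  have hy : y = (tz ^ i)⁻¹ * (b * tz ^ j) := by
    rw [hb, hi]
    simp only [Az_t, zpow_natCast]
    group
  have hlen : (len Az.X y : ℝ) ≤ i + j + 1 := by
    have h5 : (len Az.X y : ℤ) ≤ i + j + 1 := by omega
    exact_mod_cast h5
  have hl : D.c * (i + j) ≤ D.L.l y + D.C + 2 * |R₀| := by
    have hi1 := D.a_ge i
    have hj1 := D.a_ge j
    have hR0 := abs_nonneg R₀
    have hR1 := le_abs_self R₀
    by_cases hb0 : (b : Perm ℤ) 0 = 0
    · -- m = 0 or j = 0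
      have h0 : i = 0 ∨ j = 0 := by
        by_contra hne
        push Not at hne
        have h5 : Az.P 1 y (m - 1) := by
          rw [Asc.P_one_iff]
          refine ⟨by omega, by omega, ?_⟩
          have e1 : Az.t ^ (m - 1) * y * (Az.t ^ (m - 1 + e))⁻¹ = Az.t⁻¹ * b * Az.t := by
            have e2 : m - 1 + e = (j : ℤ) - 1 := by omega
            rw [e2, hb, zpow_sub_one, zpow_sub_one]
            have e3 : Az.t ^ m * Az.t⁻¹ = Az.t⁻¹ * Az.t ^ m := by group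
            rw [e3]
            group
          rw [← he, e1]
          intro k hk
          have e4 := conj_apply' b 1 k
          rw [pow_one] at e4
          rw [Az_t, e4]
          rcases eq_or_ne k (-1) with h6 | h6
          · rw [h6]
            norm_num
            exact hb0
          · rw [h3 _ (by push_cast; omega)]
            ring
        have := Az.M_le h5
        omega
      rcases h0 with h0 | h0
      · have e1 : y = b * tz ^ j := by rw [hy, h0]; simp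
        have h5 := D.l_B_mul h3 (tz ^ j)
        rw [← e1] at h5
        have h6 : D.a j = D.L.l (tz ^ j) := rfl
        rw [h0]
        push_cast
        linarith
      · have e1 : y = (tz ^ i)⁻¹ * b := by
          rw [hy, h0]; simp
        have h5 := D.L.l_mul_ge (tz ^ i)⁻¹ b
        rw [← e1, D.L.inv] at h5
        have h6 : D.a i = D.L.l (tz ^ i) := rfl
        have h7 := D.hC b h3
        rw [h0]
        push_cast
        linarith
    · have h5 := hR b h3 hb0 i j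
      have h6 := D.L.l_inv_mul (tz ^ i) (b * tz ^ j)
      rw [← hy] at h6
      have h7 := D.l_B_mul h3 (tz ^ j)
      have h8 : D.a i = D.L.l (tz ^ i) := rfl
      have h9 : D.a j = D.L.l (tz ^ j) := rfl
      linarith
  have h5 := mul_le_mul_of_nonneg_left hlen D.c0.le
  linarith

/-- Every quasi-parabolic structure is the standard one. -/
theorem unique_structure {Y : Set Gz} (hY : Subgroup.closure Y = ⊤) {δ : ℝ}
    (hδ : ∀ x y z : Gz, min (gp Y x y) (gp Y y z) - δ ≤ gp Y x z)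
    (hlox : ∃ g h : Gz, Lox Y g ∧ Lox Y h ∧
      ¬ ((SameEnd Y g h ∧ SameEnd Y g⁻¹ h⁻¹) ∨ (SameEnd Y g h⁻¹ ∧ SameEnd Y g⁻¹ h))) :
    (∃ C : ℕ, ∀ y ∈ Y, len Az.X y ≤ C) ∧ (∃ C : ℕ, ∀ x ∈ Az.X, len Y x ≤ C) := by
  obtain ⟨g, h, ⟨c, hc, hg⟩, ⟨c', hc', hh⟩, hne⟩ := hlox
  set L := ofHyp hY hδ with hL
  obtain ⟨C, hC⟩ := Bz_bounded (isLen L)
  have hC0 : 0 ≤ C := (L.nonneg 1).trans (hC 1 Bz.one_mem)
  obtain ⟨hg0, c₁, hc₁, ht⟩ := lox_tz L hC hc (g := g) hg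
  obtain ⟨hh0, -⟩ := lox_tz L hC hc' (g := h) hh
  obtain ⟨E, hE0, hE⟩ := L.almost_add tz hc₁ ht
  let D : Dat := ⟨L, C, hC0, hC, c₁, hc₁, ht, E, hE0, hE⟩
  refine ⟨?_, ?_⟩
  · rcases D.dichotomy with ⟨C₁, hC₁⟩ | ⟨R₀, hR₀⟩
    · exfalso
      apply hne
      have key := fun {g h : Gz} => same_of_bounded D hC₁ (g := g) (h := h)
      rcases lt_or_gt_of_ne hg0 with hg1 | hg1
      · have hg2 : 0 < sh g⁻¹ := by rw [sh_inv]; omega
        rcases lt_or_gt_of_ne hh0 with hh1 | hh1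
        · have hh2 : 0 < sh h⁻¹ := by rw [sh_inv]; omega
          obtain ⟨k1, k2⟩ := key hg2 hh2
          rw [inv_inv, inv_inv] at k2
          exact Or.inl ⟨k2, k1⟩
        · obtain ⟨k1, k2⟩ := key hg2 hh1
          rw [inv_inv] at k2
          exact Or.inr ⟨k2, k1⟩
      · rcases lt_or_gt_of_ne hh0 with hh1 | hh1
        · have hh2 : 0 < sh h⁻¹ := by rw [sh_inv]; omega
          obtain ⟨k1, k2⟩ := key hg1 hh2
          rw [inv_inv] at k2
          exact Or.inr ⟨k1, k2⟩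
        · obtain ⟨k1, k2⟩ := key hg1 hh1
          exact Or.inl ⟨k1, k2⟩
    · obtain ⟨N, hN⟩ := exists_nat_ge ((1 + C + 2 * |R₀| + c₁) / c₁)
      refine ⟨N, fun y hy => ?_⟩
      have h1 := std_bound D hR₀ y
      have h2 : D.L.l y ≤ 1 := by
        have : (len Y y : ℝ) ≤ 1 := by exact_mod_cast len_le_one hy
        exact this
      have h3 : D.c = c₁ := rfl
      have h4 : D.C = C := rfl
      rw [h3, h4] at h1
      rw [div_le_iff₀ hc₁] at hN
      have h5 : c₁ * (len Az.X y : ℝ) ≤ c₁ * N := by linarith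
      have h6 := le_of_mul_le_mul_left h5 hc₁
      exact_mod_cast h6
  · obtain ⟨N, hN⟩ := exists_nat_ge C
    refine ⟨max N (len Y tz), fun x hx => ?_⟩
    rcases hx with hx | hx
    · refine le_trans ?_ (le_max_left _ _)
      have h1 : (len Y x : ℝ) ≤ C := hC x hx
      exact_mod_cast h1.trans hN
    · have : x = tz := hx
      rw [this]
      exact le_max_right _ _

/-- The two elements with one common fixed point. -/
def k0 : Gz := tr 0 1

theorem k0_mem : k0 ∈ Bz := tr_mem le_rfl (by norm_num)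

theorem not_same_one : ¬ SameEnd Az.X tz (k0 * tz * k0⁻¹) := by
  intro h
  obtain ⟨N, hN⟩ := h 2
  set n := N + 1 with hn
  have h1 := hN n n (by omega) (by omega)
  have h2 := Az.gp_le (tz ^ n) ((k0 * tz * k0⁻¹) ^ n)
  have e1 : (k0 * tz * k0⁻¹) ^ n = k0 * tz ^ n * k0⁻¹ := by rw [_root_.conj_pow]
  have a1 : Az.M 1 (tz ^ n) ≤ 0 := by
    apply Az.M_le
    rw [Asc.P_one_iff]
    have e2 : Az.e (tz ^ n) = n := by
      have := Az.e_pow Az.t n
      rw [Az.e_t] at this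
      rw [← Az_t, this, mul_one]
    rw [e2]
    refine ⟨le_rfl, by omega, ?_⟩
    rw [zero_add, Az_t, zpow_natCast, zpow_zero, one_mul, mul_inv_cancel]
    exact Bz.one_mem
  have ek : Az.e k0 = 0 := Az.e_B k0_mem
  have e3 : Az.e (k0 * tz ^ n * k0⁻¹) = n := by
    rw [Asc.e_mul, Asc.e_mul, Asc.e_inv, ek, Asc.e_pow, ← Az_t, Asc.e_t]
    ring
  have a2 : Az.M 1 (k0 * tz ^ n * k0⁻¹) ≤ 0 := by
    apply Az.M_le
    rw [Asc.P_one_iff, e3]
    refine ⟨le_rfl, by omega, ?_⟩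
    rw [zero_add, Az_t, zpow_natCast, zpow_zero, one_mul]
    have h9 := Bz.mul_mem k0_mem (conj_mem (Bz.inv_mem k0_mem) n)
    have e9 : k0 * tz ^ n * k0⁻¹ * (tz ^ n)⁻¹ = k0 * (tz ^ n * k0⁻¹ * (tz ^ n)⁻¹) := by
      simp only [mul_assoc]
    rw [e9]
    exact h9
  have a3 : 0 ≤ Az.M (tz ^ n) (k0 * tz ^ n * k0⁻¹) := by
    by_contra hlt
    push Not at hlt
    have h5 := (Az.M_le_iff (m := (-1 : ℤ))).1 (by omega : Az.M (tz ^ n) (k0 * tz ^ n * k0⁻¹) ≤ -1)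
    obtain ⟨-, -, h6⟩ := h5
    have e2 : Az.e (tz ^ n) = n := by
      have := Az.e_pow Az.t n
      rw [Az.e_t] at this
      rw [← Az_t, this, mul_one]
    rw [e2, e3] at h6
    have e4 : (-1 : ℤ) + n = (N : ℤ) := by omega
    rw [e4, Az_t, zpow_natCast] at h6
    have e5 : tz ^ N * (tz ^ n)⁻¹ * (k0 * tz ^ n * k0⁻¹) * (tz ^ N)⁻¹ =
        (tz ^ 1)⁻¹ * (k0 * (tz ^ n * k0⁻¹ * (tz ^ n)⁻¹)) * tz ^ 1 := by
      have : tz ^ n = tz ^ N * tz ^ 1 := by rw [hn, pow_add]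
      have h' : tz ^ n = tz ^ 1 * tz ^ N := by rw [hn, add_comm, pow_add]
      have e6 : tz ^ N * (tz ^ n)⁻¹ = (tz ^ 1)⁻¹ := by
        rw [h', mul_inv_rev]
        group
      have e7 : (tz ^ N)⁻¹ = (tz ^ n)⁻¹ * tz ^ 1 := by
        rw [h', mul_inv_rev]
        group
      rw [e6, e7]
      group
    rw [e5] at h6
    have h7 := h6 (-1) (by norm_num)
    rw [conj_apply', Subgroup.coe_mul, Perm.mul_apply, conj_apply,
      Bz.inv_mem k0_mem _ (by push_cast; omega)] at h7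
    have e8 : ((k0 : Gz) : Perm ℤ) 0 = 1 := swap_apply_left _ _
    have e9 : (-1 : ℤ) + (1 : ℕ) - n + n = 0 := by push_cast; ring
    rw [e9, e8] at h7
    norm_num at h7
  have h3 : Az.Q (tz ^ n) ((k0 * tz * k0⁻¹) ^ n) ≤ 0 := by
    rw [e1]
    unfold Asc.Q
    omega
  have h4 : (Az.Q (tz ^ n) ((k0 * tz * k0⁻¹) ^ n) : ℝ) ≤ 0 := by exact_mod_cast h3
  linarith

theorem not_same_two : ¬ SameEnd Az.X tz (k0 * tz * k0⁻¹)⁻¹ := by
  intro h
  obtain ⟨N, hN⟩ := h 2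
  set n := N + 1 with hn
  have h1 := hN n n (by omega) (by omega)
  have h2 := Az.gp_le (tz ^ n) (((k0 * tz * k0⁻¹)⁻¹) ^ n)
  have e1 : ((k0 * tz * k0⁻¹)⁻¹) ^ n = k0 * (tz ^ n)⁻¹ * k0⁻¹ := by
    rw [inv_pow, _root_.conj_pow]
    group
  have a1 : Az.M 1 (tz ^ n) ≤ 0 := by
    apply Az.M_le
    rw [Asc.P_one_iff]
    have e2 : Az.e (tz ^ n) = n := by
      have := Az.e_pow Az.t n
      rw [Az.e_t] at this
      rw [← Az_t, this, mul_one]
    rw [e2]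
    refine ⟨le_rfl, by omega, ?_⟩
    rw [zero_add, Az_t, zpow_natCast, zpow_zero, one_mul, mul_inv_cancel]
    exact Bz.one_mem
  have ek : Az.e k0 = 0 := Az.e_B k0_mem
  have e3 : Az.e (k0 * (tz ^ n)⁻¹ * k0⁻¹) = -n := by
    rw [Asc.e_mul, Asc.e_mul, Asc.e_inv, Asc.e_inv, ek, Asc.e_pow, ← Az_t, Asc.e_t]
    ring
  have a2 : Az.M 1 (k0 * (tz ^ n)⁻¹ * k0⁻¹) ≤ n := by
    apply Az.M_le
    rw [Asc.P_one_iff, e3]
    refine ⟨by omega, by omega, ?_⟩
    rw [add_neg_cancel, Az_t, zpow_natCast, zpow_zero, inv_one, mul_one]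
    have h9 := Bz.mul_mem (conj_mem k0_mem n) (Bz.inv_mem k0_mem)
    have e9 : tz ^ n * (k0 * (tz ^ n)⁻¹ * k0⁻¹) = tz ^ n * k0 * (tz ^ n)⁻¹ * k0⁻¹ := by
      simp only [mul_assoc]
    rw [e9]
    exact h9
  have a3 := Az.neg_e_le_right (tz ^ n) (k0 * (tz ^ n)⁻¹ * k0⁻¹)
  rw [e3] at a3
  have h3 : Az.Q (tz ^ n) (((k0 * tz * k0⁻¹)⁻¹) ^ n) ≤ 0 := by
    rw [e1]
    unfold Asc.Q
    omega
  have h4 : (Az.Q (tz ^ n) (((k0 * tz * k0⁻¹)⁻¹) ^ n) : ℝ) ≤ 0 := by exact_mod_cast h3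
  linarith

theorem std_lox : ∃ g h : Gz, Lox Az.X g ∧ Lox Az.X h ∧
      ¬ ((SameEnd Az.X g h ∧ SameEnd Az.X g⁻¹ h⁻¹) ∨
        (SameEnd Az.X g h⁻¹ ∧ SameEnd Az.X g⁻¹ h)) := by
  refine ⟨tz, k0 * tz * k0⁻¹, ?_, ?_, ?_⟩
  · rw [Asc.lox_iff, ← Az_t, Asc.e_t]
    norm_num
  · rw [Asc.lox_iff, Asc.e_mul, Asc.e_mul, Asc.e_inv, ← Az_t, Asc.e_t, Az.e_B k0_mem]
    norm_num
  · rintro (⟨h, -⟩ | ⟨h, -⟩)
    · exact not_same_one h
    · exact not_same_two h

theorem std_common (g h : Gz) (hg : Lox Az.X g) (hh : Lox Az.X h) :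
    SameEnd Az.X g h ∨ SameEnd Az.X g h⁻¹ ∨ SameEnd Az.X g⁻¹ h ∨ SameEnd Az.X g⁻¹ h⁻¹ := by
  rw [Asc.lox_iff] at hg hh
  rcases lt_or_gt_of_ne hg with hg1 | hg1
  · rcases lt_or_gt_of_ne hh with hh1 | hh1
    · exact Or.inl (Az.same_pow hg1 hh1)
    · exact Or.inr (Or.inl (Az.same_pow hg1 (by rw [Asc.e_inv]; omega)))
  · rcases lt_or_gt_of_ne hh with hh1 | hh1
    · exact Or.inr (Or.inr (Or.inl (Az.same_pow (by rw [Asc.e_inv]; omega) hh1)))
    · exact Or.inr (Or.inr (Or.inr (Az.same_pow (by rw [Asc.e_inv]; omega)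
        (by rw [Asc.e_inv]; omega))))

end Pool.Agent.N68.QP
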