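import Mathlib

set_option autoImplicit false

/-! The symmetric group of the natural numbers is strongly bounded (Bergman): every length function
on it is bounded. The proof uses the trick of Galvin. -/

namespace Pool.Agent.N68.QP

open Equiv

/-- Permutations of `E × P` given by a family of permutations of `E`. -/
def diag (E P : Type*) : (P → Perm E) →* Perm (E × P) where
  toFun f :=
    { toFun := fun x => (f x.2 x.1, x.2)
      invFun := fun x => ((f x.2)⁻¹ x.1, x.2)
      left_inv := fun x => by simp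
      right_inv := fun x => by simp }
  map_one' := by
    ext x <;> rfl
  map_mul' f g := by
    ext x <;> rfl

/-- Permutations of `E × P` which permute the second coordinates. -/
def rig (E P : Type*) : Perm P →* Perm (E × P) where
  toFun q :=
    { toFun := fun x => (x.1, q x.2)
      invFun := fun x => (x.1, q⁻¹ x.2)
      left_inv := fun x => by simp
      right_inv := fun x => by simp }
  map_one' := by
    ext x <;> rfl
  map_mul' f g := by
    ext x <;> rfl

theorem rig_conj {E P : Type*} (q : Perm P) (f : P → Perm E) :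
    rig E P q * diag E P f * (rig E P q)⁻¹ = diag E P (fun z => f (q⁻¹ z)) := by
  rw [← map_inv]
  apply Equiv.ext
  rintro ⟨x, z⟩
  show ((f (q⁻¹ z)) x, q (q⁻¹ z)) = ((f (q⁻¹ z)) x, z)
  simp

/-- The vertical shift. -/
def ush : Perm (ℤ × ℤ) where
  toFun z := (z.1, z.2 + 1)
  invFun z := (z.1, z.2 - 1)
  left_inv z := by simp
  right_inv z := by simp

/-- The horizontal shift in the row `0`. -/
def ssh : Perm (ℤ × ℤ) where
  toFun z := if z.2 = 0 then (z.1 + 1, z.2) else z
  invFun z := if z.2 = 0 then (z.1 - 1, z.2) else z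
  left_inv z := by
    dsimp only
    split_ifs with h
    · simp
    · rfl
  right_inv z := by
    dsimp only
    split_ifs with h
    · simp
    · rfl

theorem ush_pow (r : ℕ) (z : ℤ × ℤ) : (ush ^ r) z = (z.1, z.2 + r) := by
  induction r with
  | zero => simp
  | succ r ih =>
    rw [pow_succ', Perm.mul_apply, ih]
    show (z.1, z.2 + r + 1) = _
    push_cast
    rw [add_assoc]

theorem ssh_inv (z : ℤ × ℤ) : ssh⁻¹ z = if z.2 = 0 then (z.1 - 1, z.2) else z := rfl

/-- The family of permutations used by Galvin. -/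
def gfam {E : Type*} (p : ℕ → Perm E) (z : ℤ × ℤ) : Perm E :=
  if 0 ≤ z.1 ∧ 0 ≤ z.2 then p z.2.toNat else 1

/-- The permutation `p` placed at the origin. -/
def orig {E : Type*} (p : Perm E) (z : ℤ × ℤ) : Perm E := if z = (0, 0) then p else 1

theorem galvin {E : Type*} (p : ℕ → Perm E) (r : ℕ) :
    diag E (ℤ × ℤ) (orig (p r)) =
      ((rig E _ ush ^ r)⁻¹ * diag E _ (gfam p) * (rig E _ ush ^ r)) * rig E _ ssh *
      ((rig E _ ush ^ r)⁻¹ * diag E _ (gfam p) * (rig E _ ush ^ r))⁻¹ * (rig E _ ssh)⁻¹ := by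
  have h1 : (rig E (ℤ × ℤ) ush ^ r)⁻¹ * diag E _ (gfam p) * (rig E _ ush ^ r) =
      diag E _ (fun z => gfam p ((ush ^ r) z)) := by
    have := rig_conj (ush ^ r)⁻¹ (gfam p)
    rw [map_inv, map_pow, inv_inv, inv_inv] at this
    exact this
  rw [h1, mul_assoc, mul_assoc, ← mul_assoc (rig E _ ssh), ← map_inv, rig_conj, ← map_mul]
  congr 1
  funext z
  obtain ⟨c, r'⟩ := z
  show orig (p r) (c, r') = gfam p ((ush ^ r) (c, r')) * (gfam p ((ush ^ r) (ssh⁻¹ (c, r'))))⁻¹
  rw [ssh_inv, ush_pow]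
  by_cases hr : r' = 0
  · subst hr
    simp only [if_true, ush_pow, orig, gfam, zero_add, Prod.mk.injEq, and_true, Int.toNat_natCast,
      Nat.cast_nonneg]
    rcases lt_trichotomy c 0 with h | h | h
    · rw [if_neg (by omega), if_neg (by omega), if_neg (by omega)]
      simp
    · rw [if_pos h, if_pos (by omega), if_neg (by omega)]
      simp
    · rw [if_neg (by omega), if_pos (by omega), if_pos (by omega)]
      simp
  · simp only [if_neg hr, ush_pow, mul_inv_cancel, orig]
    rw [if_neg (by simp [hr])]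

/-- A length function on a group. -/
structure IsLen {Γ : Type*} [Group Γ] (l : Γ → ℝ) : Prop where
  inv : ∀ g, l g⁻¹ = l g
  mul_le : ∀ g h, l (g * h) ≤ l g + l h

namespace IsLen

variable {Γ : Type*} [Group Γ] {l : Γ → ℝ} (hl : IsLen l)

include hl in
theorem nonneg (g : Γ) : 0 ≤ l g := by
  have h1 := hl.mul_le 1 1
  have h2 := hl.mul_le g g⁻¹
  rw [hl.inv, mul_inv_cancel] at h2
  rw [mul_one] at h1
  linarith

include hl in
theorem pow_le (g : Γ) (n : ℕ) : l (g ^ n) ≤ n * l g + l 1 := by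
  induction n with
  | zero => simp
  | succ n ih =>
    rw [pow_succ]
    have := hl.mul_le (g ^ n) g
    push_cast
    linarith

include hl in
theorem comp {Γ' : Type*} [Group Γ'] (φ : Γ' →* Γ) : IsLen (fun g => l (φ g)) where
  inv g := by simp only [map_inv, hl.inv]
  mul_le g h := by
    simp only [map_mul]
    exact hl.mul_le _ _

end IsLen

theorem galvin_bound {E : Type*} {l : Perm (E × (ℤ × ℤ)) → ℝ} (hl : IsLen l) :
    ∃ C : ℝ, ∀ p : Perm E, l (diag E _ (orig p)) ≤ C := by
  by_contra hne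
  push Not at hne
  choose p hp using fun n : ℕ => hne ((n : ℝ) ^ 2)
  set U := l (rig E _ ush)
  set S := l (rig E _ ssh)
  set A := l (diag E _ (gfam p))
  set O := l 1
  have key : ∀ r : ℕ, ((r : ℝ)) ^ 2 ≤ 4 * r * U + 2 * A + 2 * S + 4 * O := by
    intro r
    refine (hp r).le.trans ?_
    rw [galvin p r]
    have h1 := hl.mul_le (((rig E _ ush ^ r)⁻¹ * diag E _ (gfam p) * (rig E _ ush ^ r)) *
      rig E _ ssh * ((rig E _ ush ^ r)⁻¹ * diag E _ (gfam p) * (rig E _ ush ^ r))⁻¹)
      (rig E _ ssh)⁻¹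
    have h2 := hl.mul_le (((rig E _ ush ^ r)⁻¹ * diag E _ (gfam p) * (rig E _ ush ^ r)) *
      rig E _ ssh) ((rig E _ ush ^ r)⁻¹ * diag E _ (gfam p) * (rig E _ ush ^ r))⁻¹
    have h3 := hl.mul_le ((rig E _ ush ^ r)⁻¹ * diag E _ (gfam p) * (rig E _ ush ^ r))
      (rig E _ ssh)
    have h4 := hl.mul_le ((rig E _ ush ^ r)⁻¹ * diag E _ (gfam p)) (rig E _ ush ^ r)
    have h5 := hl.mul_le (rig E _ ush ^ r)⁻¹ (diag E _ (gfam p))
    have h6 := hl.pow_le (rig E _ ush) r
    rw [hl.inv] at h1 h2 h5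
    linarith
  -- contradiction
  set T := 2 * A + 2 * S + 4 * O
  obtain ⟨n, hn⟩ := exists_nat_gt (max (4 * |U| + 1) (|T| + 1))
  have h1 := key n
  have h2 : 4 * |U| + 1 < n := (le_max_left _ _).trans_lt hn
  have h3 : |T| + 1 < n := (le_max_right _ _).trans_lt hn
  have h4 := le_abs_self U
  have h5 := le_abs_self T
  have h6 : (0 : ℝ) ≤ n := Nat.cast_nonneg n
  have h7 : 0 ≤ |U| := abs_nonneg U
  have h8 : (n : ℝ) * U ≤ n * |U| := mul_le_mul_of_nonneg_left h4 h6
  have h9 : (n : ℝ) * (4 * |U| + 1) ≤ n * n := mul_le_mul_of_nonneg_left h2.le h6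
  nlinarith

/-- A length function is bounded on the permutations supported on a set with infinite
complement. -/
theorem bounded_of_compl {α : Type*} [Countable α] {l : Perm α → ℝ} (hl : IsLen l) (E : Set α)
    (hE : Eᶜ.Infinite) : ∃ C : ℝ, ∀ p : Perm α, (∀ x, x ∉ E → p x = x) → l p ≤ C := by
  classical
  have : Infinite (Eᶜ : Set α) := hE.to_subtype
  obtain ⟨enc, henc⟩ := Countable.exists_injective_nat (E × (ℤ × ℤ))
  let ν : ℕ ↪ (Eᶜ : Set α) := Infinite.natEmbedding _
  let e : E × (ℤ × ℤ) → α := fun x => if x.2 = (0, 0) then (x.1 : α) else (ν (enc x) : α)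
  have he : Function.Injective e := by
    rintro ⟨x, z⟩ ⟨x', z'⟩ h
    simp only [e] at h
    split_ifs at h with h1 h2 h2
    · rw [h1, h2, Subtype.ext h]
    · exact absurd (h ▸ x.2 : ((ν (enc (x', z')) : (Eᶜ : Set α)) : α) ∈ E) (ν (enc (x', z'))).2
    · exact absurd (h ▸ x'.2 : ((ν (enc (x, z)) : (Eᶜ : Set α)) : α) ∈ E) (ν (enc (x, z))).2
    · exact henc (ν.injective (Subtype.ext h))
  let ι : E × (ℤ × ℤ) ↪ α := ⟨e, he⟩
  obtain ⟨C, hC⟩ := galvin_bound (hl.comp (Perm.viaEmbeddingHom ι))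
  refine ⟨C, fun p hp => ?_⟩
  have hpE : ∀ x, x ∈ E ↔ p x ∈ E := by
    intro x
    constructor
    · intro hx
      by_contra h
      have h1 := hp _ h
      have h2 := p.injective h1
      rw [h2] at h
      exact h hx
    · intro hx
      by_contra h
      rw [hp x h] at hx
      exact h hx
  let q : Perm E := p.subtypePerm (fun x => (hpE x).symm)
  have h1 := hC q
  convert h1 using 1
  congr 1
  apply Equiv.ext
  intro x
  show p x = Perm.viaEmbedding (diag E _ (orig q)) ι x
  by_cases hx : x ∈ Set.range ι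
  · obtain ⟨⟨y, z⟩, rfl⟩ := hx
    rw [Perm.viaEmbedding_apply]
    show p (e (y, z)) = e ((orig q z) y, z)
    by_cases hz : z = (0, 0)
    · subst hz
      simp only [e, if_true, orig]
      rfl
    · simp only [e, if_neg hz, orig, Perm.one_apply]
      exact hp _ (ν (enc (y, z))).2
  · rw [Perm.viaEmbedding_apply_of_notMem _ _ _ hx]
    apply hp
    intro h
    apply hx
    exact ⟨(⟨x, h⟩, (0, 0)), by simp [ι, e]⟩

/-- Extension of a bijection between subsets of `E` to a permutation supported on `E`. -/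
theorem exists_extend {α : Type*} [Countable α] {E X X' : Set α} (hX : X ⊆ E) (hX' : X' ⊆ E)
    (h : (E \ X).Infinite) (h' : (E \ X').Infinite) (f : X ≃ X') :
    ∃ τ : Perm α, (∀ x, x ∉ E → τ x = x) ∧ ∀ x : X, τ x = f x := by
  classical
  have : Infinite (E \ X : Set α) := h.to_subtype
  have : Infinite (E \ X' : Set α) := h'.to_subtype
  obtain ⟨g⟩ : Nonempty ((E \ X : Set α) ≃ (E \ X' : Set α)) := nonempty_equiv_of_countable
  have hm : ∀ x, x ∈ E → x ∉ X → x ∈ E \ X := fun x h1 h2 => ⟨h1, h2⟩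
  have hm' : ∀ x, x ∈ E → x ∉ X' → x ∈ E \ X' := fun x h1 h2 => ⟨h1, h2⟩
  let F : α → α := fun x => if hx : x ∈ X then f ⟨x, hx⟩ else
    if hx' : x ∈ E then g ⟨x, hm x hx' hx⟩ else x
  let F' : α → α := fun x => if hx : x ∈ X' then f.symm ⟨x, hx⟩ else
    if hx' : x ∈ E then g.symm ⟨x, hm' x hx' hx⟩ else x
  have hl : Function.LeftInverse F' F := by
    intro x
    by_cases hx : x ∈ X
    · simp only [F, F', dif_pos hx]
      rw [dif_pos (f ⟨x, hx⟩).2]
      simp
    · by_cases hE : x ∈ E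
      · simp only [F, F', dif_neg hx, dif_pos hE]
        rw [dif_neg (g ⟨x, hm x hE hx⟩).2.2, dif_pos (g ⟨x, hm x hE hx⟩).2.1]
        simp
      · simp only [F, F', dif_neg hx, dif_neg hE]
        rw [dif_neg (fun h => hE (hX' h))]
  have hr : Function.RightInverse F' F := by
    intro x
    by_cases hx : x ∈ X'
    · simp only [F, F', dif_pos hx]
      rw [dif_pos (f.symm ⟨x, hx⟩).2]
      simp
    · by_cases hE : x ∈ E
      · simp only [F, F', dif_neg hx, dif_pos hE]
        rw [dif_neg (g.symm ⟨x, hm' x hE hx⟩).2.2, dif_pos (g.symm ⟨x, hm' x hE hx⟩).2.1]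
        simp
      · simp only [F, F', dif_neg hx, dif_neg hE]
        rw [dif_neg (fun h => hE (hX h))]
  refine ⟨⟨F, F', hl, hr⟩, fun x hx => ?_, fun x => ?_⟩
  · show F x = x
    simp only [F, dif_neg (fun h => hx (hX h)), dif_neg hx]
  · show F x = f x
    simp only [F, dif_pos x.2]

/-- If infinitely many points of `A` are mapped to `E`, then `p` is a product of three permutations
with large fixed point sets. -/
theorem decomp {α : Type*} [Countable α] {A X E : Set α} (p : Perm α) (hA : A.Infinite)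
    (hAE : A ⊆ E) (hX : X ⊆ A) (hXi : X.Infinite) (hpE : ∀ x ∈ X, p x ∈ E)
    (h1 : (E \ A).Infinite) (h2 : (E \ (p '' X)).Infinite) :
    ∃ ρ τ q : Perm α, (∀ x, x ∉ E → ρ x = x) ∧ (∀ x, x ∉ E → τ x = x) ∧ (∀ x ∈ A, q x = x) ∧
      p = τ⁻¹ * q * ρ := by
  have : Infinite A := hA.to_subtype
  have : Infinite X := hXi.to_subtype
  obtain ⟨f⟩ : Nonempty (X ≃ A) := nonempty_equiv_of_countable
  have h3 : (E \ X).Infinite := h1.mono (Set.sdiff_subset_sdiff_right hX)
  obtain ⟨ρ, hρ1, hρ2⟩ := exists_extend (hX.trans hAE) hAE h3 h1 f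
  let f' : (p '' X : Set α) ≃ A := (p.image X).symm.trans f
  obtain ⟨τ, hτ1, hτ2⟩ := exists_extend (E := E) (X := p '' X) (X' := A)
    (by rintro _ ⟨x, hx, rfl⟩; exact hpE x hx) hAE h2 h1 f'
  refine ⟨ρ, τ, τ * p * ρ⁻¹, hρ1, hτ1, ?_, by group⟩
  intro y hy
  have h4 : ρ⁻¹ y = (f.symm ⟨y, hy⟩ : α) := by
    rw [Perm.inv_eq_iff_eq, hρ2]
    simp
  have h5 : τ (p (f.symm ⟨y, hy⟩ : α)) = y := by
    have h6 := hτ2 ⟨p (f.symm ⟨y, hy⟩ : α), ⟨_, (f.symm ⟨y, hy⟩).2, rfl⟩⟩
    rw [h6]
    simp only [f', Equiv.trans_apply]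
    have h7 : (p.image X).symm ⟨p (f.symm ⟨y, hy⟩ : α), ⟨_, (f.symm ⟨y, hy⟩).2, rfl⟩⟩ =
        f.symm ⟨y, hy⟩ := by
      rw [Equiv.symm_apply_eq]
      rfl
    rw [h7]
    simp
  show τ (p (ρ⁻¹ y)) = y
  rw [h4, h5]

/-- The residue class of `j` modulo `3`. -/
def cls (j : ℕ) : Set ℕ := {n | n % 3 = j}

theorem cls_infinite {j : ℕ} (hj : j < 3) : (cls j).Infinite := by
  refine Set.infinite_of_injective_forall_mem (f := fun n : ℕ => 3 * n + j) ?_ ?_
  · intro a b h
    simp only at h
    omega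
  · intro n
    show (3 * n + j) % 3 = j
    omega

/-- Every length function on the group of permutations of the natural numbers is bounded. -/
theorem perm_bounded {l : Perm ℕ → ℝ} (hl : IsLen l) : ∃ C : ℝ, ∀ p, l p ≤ C := by
  -- three sets with infinite complement
  have hc : ∀ i j k : ℕ, i < 3 → j < 3 → k < 3 → k ≠ i → k ≠ j → (cls i ∪ cls j)ᶜ.Infinite := by
    intro i j k _ _ hk hki hkj
    refine (cls_infinite hk).mono ?_
    intro n hn hn'
    have hn1 : n % 3 = k := hn
    rcases hn' with h | h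
    · have : n % 3 = i := h
      omega
    · have : n % 3 = j := h
      omega
  obtain ⟨C1, hC1⟩ := bounded_of_compl hl (cls 0 ∪ cls 1)
    (hc 0 1 2 (by norm_num) (by norm_num) (by norm_num) (by norm_num) (by norm_num))
  obtain ⟨C2, hC2⟩ := bounded_of_compl hl (cls 0 ∪ cls 2)
    (hc 0 2 1 (by norm_num) (by norm_num) (by norm_num) (by norm_num) (by norm_num))
  obtain ⟨C3, hC3⟩ := bounded_of_compl hl (cls 0)ᶜ (by
    rw [compl_compl]; exact cls_infinite (by norm_num))
  refine ⟨2 * max C1 C2 + C3, fun p => ?_⟩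
  -- pigeonhole
  have hpg : ∃ j < 3, {x | x ∈ cls 0 ∧ p x ∈ cls j}.Infinite := by
    by_contra hne
    push Not at hne
    apply cls_infinite (j := 0) (by norm_num)
    have h0 := hne 0 (by norm_num)
    have h1 := hne 1 (by norm_num)
    have h2 := hne 2 (by norm_num)
    refine ((h0.union h1).union h2).subset ?_
    intro x hx
    have h3 : p x % 3 = 0 ∨ p x % 3 = 1 ∨ p x % 3 = 2 := by omega
    rcases h3 with h | h | h
    · exact Or.inl (Or.inl ⟨hx, h⟩)
    · exact Or.inl (Or.inr ⟨hx, h⟩)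
    · exact Or.inr ⟨hx, h⟩
  obtain ⟨j, hj, hX⟩ := hpg
  set X : Set ℕ := {x | x ∈ cls 0 ∧ p x ∈ cls j} with hXdef
  have hnn1 : 0 ≤ C1 := (hl.nonneg 1).trans (hC1 1 (fun _ _ => rfl))
  have hnn2 : 0 ≤ C2 := (hl.nonneg 1).trans (hC2 1 (fun _ _ => rfl))
  -- the set E
  have main : ∀ (i C : ℕ) (D : ℝ), i < 3 → i ≠ 0 → (j = 0 ∨ j = i) →
      (∀ q : Perm ℕ, (∀ x, x ∉ cls 0 ∪ cls i → q x = x) → l q ≤ D) → l p ≤ 2 * D + C3 := by
    intro i _ D hi hi0 hji hD
    obtain ⟨ρ, τ, q, h1, h2, h3, h4⟩ := decomp (A := cls 0) (X := X)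
      (E := cls 0 ∪ cls i) p (cls_infinite (by norm_num)) Set.subset_union_left
      (fun x hx => hx.1) hX (by
        intro x hx
        rcases hji with h | h
        · exact Or.inl (h ▸ hx.2)
        · exact Or.inr (h ▸ hx.2))
      (by
        refine (cls_infinite hi).mono ?_
        intro n hn
        refine ⟨Or.inr hn, fun h => ?_⟩
        have a : n % 3 = 0 := h
        have b : n % 3 = i := hn
        omega)
      (by
        rcases hji with h | h
        · refine (cls_infinite hi).mono ?_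
          intro n hn
          refine ⟨Or.inr hn, ?_⟩
          rintro ⟨x, hx, rfl⟩
          have a : p x % 3 = j := hx.2
          have b : p x % 3 = i := hn
          omega
        · refine (cls_infinite (j := 0) (by norm_num)).mono ?_
          intro n hn
          refine ⟨Or.inl hn, ?_⟩
          rintro ⟨x, hx, rfl⟩
          have a : p x % 3 = j := hx.2
          have b : p x % 3 = 0 := hn
          omega)
    rw [h4]
    have h5 := hl.mul_le (τ⁻¹ * q) ρ
    have h6 := hl.mul_le τ⁻¹ q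
    rw [hl.inv] at h6
    have h7 := hD ρ h1
    have h8 := hD τ h2
    have h9 := hC3 q (by
      intro x hx
      apply h3
      simpa using hx)
    linarith
  have e1 := le_max_left C1 C2
  have e2 := le_max_right C1 C2
  have h012 : j = 0 ∨ j = 1 ∨ j = 2 := by omega
  rcases h012 with h | h | h
  · have := main 1 0 C1 (by norm_num) (by norm_num) (Or.inl h) hC1
    linarith
  · have := main 1 0 C1 (by norm_num) (by norm_num) (Or.inr h) hC1
    linarith
  · have := main 2 0 C2 (by norm_num) (by norm_num) (Or.inr h) hC2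
    linarith

end Pool.Agent.N68.QP
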