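import Pool.Agent.R640.Asc
import Pool.Agent.N68.QP.SB

set_option autoImplicit false

/-! The group of the permutations of `ℤ` which are translations near `-∞`. -/

namespace Pool.Agent.N68.QP

open Equiv Pool.Agent.R640

/-- The permutations of `ℤ` which are translations near `-∞`. -/
def Gsub : Subgroup (Perm ℤ) where
  carrier := {g | ∃ k N : ℤ, ∀ i, i < N → g i = i + k}
  one_mem' := ⟨0, 0, fun i _ => by simp⟩
  mul_mem' := by
    rintro g h ⟨k, N, hg⟩ ⟨k', N', hh⟩
    refine ⟨k + k', min N' (N - k'), fun i hi => ?_⟩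
    rw [Perm.mul_apply, hh i (lt_of_lt_of_le hi (min_le_left _ _)), hg]
    · ring
    · have := lt_of_lt_of_le hi (min_le_right N' (N - k'))
      omega
  inv_mem' := by
    rintro g ⟨k, N, hg⟩
    refine ⟨-k, N + k, fun i hi => ?_⟩
    rw [Perm.inv_eq_iff_eq, hg _ (by omega)]
    ring

/-- The group of the permutations of `ℤ` which are translations near `-∞`. -/
abbrev Gz : Type := Gsub

theorem shift_exists (g : Gz) : ∃ k : ℤ, ∃ N : ℤ, ∀ i, i < N → (g : Perm ℤ) i = i + k := g.2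

/-- The translation length near `-∞`. -/
noncomputable def sh (g : Gz) : ℤ := (shift_exists g).choose

theorem sh_spec (g : Gz) : ∃ N : ℤ, ∀ i, i < N → (g : Perm ℤ) i = i + sh g :=
  (shift_exists g).choose_spec

theorem sh_eq {g : Gz} {k N : ℤ} (h : ∀ i, i < N → (g : Perm ℤ) i = i + k) : sh g = k := by
  obtain ⟨N', h'⟩ := sh_spec g
  have h1 := h (min N N' - 1) (by have := min_le_left N N'; omega)
  have h2 := h' (min N N' - 1) (by have := min_le_right N N'; omega)
  omega

/-- The translation length as a homomorphism. -/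
noncomputable def shHom : Gz →* Multiplicative ℤ where
  toFun g := Multiplicative.ofAdd (sh g)
  map_one' := by
    have : sh 1 = 0 := sh_eq (N := 0) (fun i _ => by simp)
    rw [this]
    rfl
  map_mul' g h := by
    obtain ⟨N, hg⟩ := sh_spec g
    obtain ⟨N', hh⟩ := sh_spec h
    have : sh (g * h) = sh g + sh h := by
      refine sh_eq (N := min N' (N - sh h)) (fun i hi => ?_)
      rw [Subgroup.coe_mul, Perm.mul_apply, hh i (lt_of_lt_of_le hi (min_le_left _ _)), hg]
      · ring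
      · have := lt_of_lt_of_le hi (min_le_right N' (N - sh h))
        omega
    rw [this]
    rfl

/-- The translation by one. -/
def tz : Gz := ⟨Equiv.addRight 1, 1, 0, fun _ _ => rfl⟩

theorem tz_apply (i : ℤ) : (tz : Perm ℤ) i = i + 1 := rfl

theorem tz_pow_apply (n : ℕ) (i : ℤ) : ((tz ^ n : Gz) : Perm ℤ) i = i + n := by
  induction n with
  | zero => simp
  | succ n ih =>
    rw [pow_succ', Subgroup.coe_mul, Perm.mul_apply, ih, tz_apply]
    push_cast
    ring

theorem tz_pow_inv_apply (n : ℕ) (i : ℤ) : (((tz ^ n)⁻¹ : Gz) : Perm ℤ) i = i - n := by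
  rw [Subgroup.coe_inv, Perm.inv_eq_iff_eq, tz_pow_apply]
  ring

/-- The permutations fixing all negative integers. -/
def Bz : Subgroup Gz where
  carrier := {g | ∀ i : ℤ, i < 0 → (g : Perm ℤ) i = i}
  one_mem' := fun i _ => by simp
  mul_mem' := by
    intro g h hg hh i hi
    rw [Subgroup.coe_mul, Perm.mul_apply, hh i hi, hg i hi]
  inv_mem' := by
    intro g hg i hi
    rw [Subgroup.coe_inv, Perm.inv_eq_iff_eq, hg i hi]

theorem mem_Bz {g : Gz} : g ∈ Bz ↔ ∀ i : ℤ, i < 0 → (g : Perm ℤ) i = i := Iff.rfl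

theorem sh_Bz {g : Gz} (hg : g ∈ Bz) : sh g = 0 :=
  sh_eq (N := 0) (fun i hi => by rw [hg i hi, add_zero])

theorem conj_apply (g : Gz) (n : ℕ) (i : ℤ) :
    ((tz ^ n * g * (tz ^ n)⁻¹ : Gz) : Perm ℤ) i = (g : Perm ℤ) (i - n) + n := by
  rw [Subgroup.coe_mul, Perm.mul_apply, Subgroup.coe_mul, Perm.mul_apply, tz_pow_apply,
    tz_pow_inv_apply]

theorem conj_apply' (g : Gz) (n : ℕ) (i : ℤ) :
    (((tz ^ n)⁻¹ * g * tz ^ n : Gz) : Perm ℤ) i = (g : Perm ℤ) (i + n) - n := by
  rw [Subgroup.coe_mul, Perm.mul_apply, Subgroup.coe_mul, Perm.mul_apply, tz_pow_apply,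
    tz_pow_inv_apply]

theorem conj_mem {g : Gz} (hg : g ∈ Bz) (n : ℕ) : tz ^ n * g * (tz ^ n)⁻¹ ∈ Bz := by
  intro i hi
  rw [conj_apply, hg _ (by omega)]
  ring

/-- The group as an ascending HNN extension. -/
noncomputable def Az : Asc Gz where
  χ := shHom
  t := tz
  B := Bz
  χt := by
    show Multiplicative.ofAdd (sh tz) = _
    rw [sh_eq (g := tz) (k := 1) (N := 0) (fun i _ => rfl)]
  χB b hb := by
    show Multiplicative.ofAdd (sh b) = _
    rw [sh_Bz hb]
    rfl
  conj b hb := by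
    have := conj_mem hb 1
    rwa [pow_one] at this
  exh g hg := by
    have h0 : sh g = 0 := by
      have : Multiplicative.ofAdd (sh g) = 1 := hg
      simpa using this
    obtain ⟨N, hN⟩ := sh_spec g
    refine ⟨(-N).toNat, fun i hi => ?_⟩
    rw [conj_apply, hN _ (by omega), h0]
    ring

theorem Az_t : Az.t = tz := rfl
theorem Az_B : Az.B = Bz := rfl
theorem Az_e (g : Gz) : Az.e g = sh g := rfl

/-- Elements of `B` preserve the nonnegative integers. -/
theorem Bz_nonneg {g : Gz} (hg : g ∈ Bz) {i : ℤ} (hi : 0 ≤ i) : 0 ≤ (g : Perm ℤ) i := by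
  by_contra h
  push Not at h
  have h1 := hg _ h
  have h2 := (g : Perm ℤ).injective h1
  omega

/-- The permutations of `ℕ` as elements of `B`. -/
noncomputable def embN : Perm ℕ →* Gz where
  toFun p := ⟨Perm.viaEmbedding p ⟨((↑) : ℕ → ℤ), Nat.cast_injective⟩, 0, 0, fun i hi => by
    rw [Perm.viaEmbedding_apply_of_notMem, add_zero]
    rintro ⟨n, hn⟩
    have : (n : ℤ) = i := hn
    omega⟩
  map_one' := by
    apply Subtype.ext
    exact map_one (Perm.viaEmbeddingHom _)
  map_mul' p q := by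
    apply Subtype.ext
    exact map_mul (Perm.viaEmbeddingHom _) p q

theorem embN_apply (p : Perm ℕ) (n : ℕ) : ((embN p : Gz) : Perm ℤ) n = (p n : ℕ) :=
  Perm.viaEmbedding_apply p ⟨((↑) : ℕ → ℤ), Nat.cast_injective⟩ n

theorem embN_apply_neg (p : Perm ℕ) {i : ℤ} (hi : i < 0) : ((embN p : Gz) : Perm ℤ) i = i := by
  apply Perm.viaEmbedding_apply_of_notMem
  rintro ⟨n, hn⟩
  have : (n : ℤ) = i := hn
  omega

theorem embN_surj {g : Gz} (hg : g ∈ Bz) : ∃ p : Perm ℕ, embN p = g := by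
  have h1 : ∀ {g : Gz}, g ∈ Bz → ∀ n : ℕ, (((g : Perm ℤ) n).toNat : ℤ) = (g : Perm ℤ) n :=
    fun hg n => Int.toNat_of_nonneg (Bz_nonneg hg (Int.natCast_nonneg n))
  refine ⟨⟨fun n => ((g : Perm ℤ) n).toNat, fun n => (((g⁻¹ : Gz) : Perm ℤ) n).toNat,
    fun n => ?_, fun n => ?_⟩, ?_⟩
  · have h2 : ((((g⁻¹ : Gz) : Perm ℤ) (((g : Perm ℤ) n).toNat)).toNat : ℤ) = n := by
      rw [h1 (Bz.inv_mem hg), h1 hg, Subgroup.coe_inv]
      exact (g : Perm ℤ).symm_apply_apply _
    exact_mod_cast h2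
  · have h2 : (((g : Perm ℤ) ((((g⁻¹ : Gz) : Perm ℤ) n).toNat)).toNat : ℤ) = n := by
      rw [h1 hg, h1 (Bz.inv_mem hg), Subgroup.coe_inv]
      exact (g : Perm ℤ).apply_symm_apply _
    exact_mod_cast h2
  · apply Subtype.ext
    apply Equiv.ext
    intro i
    rcases lt_or_ge i 0 with h | h
    · rw [embN_apply_neg _ h, hg i h]
    · obtain ⟨n, rfl⟩ := Int.eq_ofNat_of_zero_le h
      rw [embN_apply]
      exact h1 hg n

theorem Bz_bounded {l : Gz → ℝ} (hl : IsLen l) : ∃ C : ℝ, ∀ g ∈ Bz, l g ≤ C := by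
  obtain ⟨C, hC⟩ := perm_bounded (hl.comp embN)
  refine ⟨C, fun g hg => ?_⟩
  obtain ⟨p, rfl⟩ := embN_surj hg
  exact hC p

/-- Transpositions. -/
def tr (x y : ℤ) : Gz := ⟨swap x y, 0, min x y, fun i hi => by
  rw [swap_apply_of_ne_of_ne, add_zero]
  · have := min_le_left x y; omega
  · have := min_le_right x y; omega⟩

theorem tr_coe (x y : ℤ) : ((tr x y : Gz) : Perm ℤ) = swap x y := rfl

theorem tr_mem {x y : ℤ} (hx : 0 ≤ x) (hy : 0 ≤ y) : tr x y ∈ Bz := by
  intro i hi
  rw [tr_coe, swap_apply_of_ne_of_ne] <;> omega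

theorem tr_conj (n : ℕ) (x y : ℤ) : tz ^ n * tr x y * (tz ^ n)⁻¹ = tr (x + n) (y + n) := by
  apply Subtype.ext
  apply Equiv.ext
  intro i
  rw [conj_apply, tr_coe, tr_coe]
  by_cases h1 : i = x + n
  · subst h1
    simp
  · by_cases h2 : i = y + n
    · subst h2
      simp
    · rw [swap_apply_of_ne_of_ne h1 h2, swap_apply_of_ne_of_ne (by omega) (by omega)]
      ring

theorem tr_comm (x y : ℤ) : tr x y = tr y x := by
  apply Subtype.ext
  exact swap_comm x y

theorem tr_tr_tr {x y z : ℤ} (hxy : x ≠ y) (hxz : x ≠ z) (hyz : y ≠ z) :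
    tr x z * tr y z * tr x z = tr x y := by
  apply Subtype.ext
  show swap x z * swap y z * swap x z = swap x y
  apply Equiv.ext
  intro i
  simp only [Perm.mul_apply]
  by_cases h1 : i = x
  · subst h1
    rw [swap_apply_left, swap_apply_right, swap_apply_left,
      swap_apply_of_ne_of_ne (Ne.symm hxy) hyz]
  · by_cases h2 : i = y
    · subst h2
      rw [swap_apply_right, swap_apply_of_ne_of_ne (Ne.symm hxy) hyz, swap_apply_left,
        swap_apply_right]
    · rw [swap_apply_of_ne_of_ne h1 h2]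
      by_cases h3 : i = z
      · subst h3
        rw [swap_apply_right, swap_apply_of_ne_of_ne hxy hxz, swap_apply_left]
      · rw [swap_apply_of_ne_of_ne h1 h3, swap_apply_of_ne_of_ne h2 h3,
          swap_apply_of_ne_of_ne h1 h3]

end Pool.Agent.N68.QP
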