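import Mathlib

set_option autoImplicit false

/-! Hyperbolic length functions on groups: almost additivity along a loxodromic element. -/

namespace Pool.Agent.N68.QP

/-- A length function on a group satisfying the four point condition. -/
structure HLen (G : Type*) [Group G] where
  l : G → ℝ
  nonneg : ∀ g, 0 ≤ l g
  one : l 1 = 0
  inv : ∀ g, l g⁻¹ = l g
  mul_le : ∀ g h, l (g * h) ≤ l g + l h
  δ : ℝ
  δ_nonneg : 0 ≤ δ
  hyp : ∀ x y z : G,
    min ((l x + l y - l (x⁻¹ * y)) / 2) ((l y + l z - l (y⁻¹ * z)) / 2) - δ ≤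
      (l x + l z - l (x⁻¹ * z)) / 2

namespace HLen

variable {G : Type*} [Group G] (L : HLen G)

/-- The Gromov product. -/
noncomputable def gp (x y : G) : ℝ := (L.l x + L.l y - L.l (x⁻¹ * y)) / 2

theorem gp_hyp (x y z : G) : min (L.gp x y) (L.gp y z) - L.δ ≤ L.gp x z := L.hyp x y z

theorem gp_hyp' {x y z : G} {R : ℝ} (h1 : R ≤ L.gp x y) (h2 : R ≤ L.gp y z) :
    R - L.δ ≤ L.gp x z := by
  have h := L.gp_hyp x y z
  have h3 : R ≤ min (L.gp x y) (L.gp y z) := le_min h1 h2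
  linarith

theorem gp_comm (x y : G) : L.gp x y = L.gp y x := by
  unfold gp
  have : L.l (x⁻¹ * y) = L.l (y⁻¹ * x) := by
    rw [← L.inv (x⁻¹ * y)]
    congr 1
    group
  rw [this]
  ring

theorem le_add (x y : G) : L.l x ≤ L.l y + L.l (x⁻¹ * y) := by
  have h := L.mul_le y (y⁻¹ * x)
  rw [mul_inv_cancel_left] at h
  have : L.l (x⁻¹ * y) = L.l (y⁻¹ * x) := by
    rw [← L.inv (x⁻¹ * y)]
    congr 1
    group
  rw [this]
  exact h

theorem gp_le_left (x y : G) : L.gp x y ≤ L.l x := by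
  unfold gp
  have h := L.mul_le x (x⁻¹ * y)
  rw [mul_inv_cancel_left] at h
  linarith

theorem gp_le_right (x y : G) : L.gp x y ≤ L.l y := by
  rw [gp_comm]
  exact L.gp_le_left y x

theorem gp_nonneg (x y : G) : 0 ≤ L.gp x y := by
  unfold gp
  have h := L.mul_le x⁻¹ y
  rw [L.inv] at h
  linarith

theorem l_mul_ge (x y : G) : L.l x - L.l y ≤ L.l (x * y) := by
  have h := L.mul_le (x * y) y⁻¹
  rw [mul_inv_cancel_right, L.inv] at h
  linarith

theorem l_mul_ge' (x y : G) : L.l y - L.l x ≤ L.l (x * y) := by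
  have h := L.mul_le x⁻¹ (x * y)
  rw [inv_mul_cancel_left, L.inv] at h
  linarith

theorem gp_mul_right (x y c d : G) : L.gp x y - (L.l c + L.l d) ≤ L.gp (x * c) (y * d) := by
  unfold gp
  have h1 := L.l_mul_ge x c
  have h2 := L.l_mul_ge y d
  have h3 : L.l ((x * c)⁻¹ * (y * d)) ≤ L.l c + L.l (x⁻¹ * y) + L.l d := by
    have e : (x * c)⁻¹ * (y * d) = c⁻¹ * (x⁻¹ * y) * d := by group
    rw [e]
    have h4 := L.mul_le (c⁻¹ * (x⁻¹ * y)) d
    have h5 := L.mul_le c⁻¹ (x⁻¹ * y)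
    rw [L.inv] at h5
    linarith
  linarith

theorem gp_mul_left (k x y : G) : L.gp x y - L.l k ≤ L.gp (k * x) (k * y) := by
  unfold gp
  have h1 := L.l_mul_ge' k x
  have h2 := L.l_mul_ge' k y
  have e : (k * x)⁻¹ * (k * y) = x⁻¹ * y := by group
  rw [e]
  linarith

/-- The length of the inverse of one factor times the other in terms of the Gromov product. -/
theorem l_inv_mul (x y : G) : L.l (x⁻¹ * y) = L.l x + L.l y - 2 * L.gp x y := by
  unfold gp
  ring

theorem pow_le (g : G) (n : ℕ) : L.l (g ^ n) ≤ n * L.l g := by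
  induction n with
  | zero => simp [L.one]
  | succ n ih =>
    rw [pow_succ]
    have := L.mul_le (g ^ n) g
    push_cast
    linarith

section Four

variable (t : G)

theorem four (i j k : ℕ) : L.l (t ^ (i + j)) + L.l (t ^ (j + k)) ≤
    max (L.l (t ^ i) + L.l (t ^ k)) (L.l (t ^ (i + j + k)) + L.l (t ^ j)) + 2 * L.δ := by
  have h := L.hyp (t ^ i) (t ^ (i + j)) (t ^ (i + j + k))
  have e1 : (t ^ i)⁻¹ * t ^ (i + j) = t ^ j := by rw [pow_add]; group
  have e2 : (t ^ (i + j))⁻¹ * t ^ (i + j + k) = t ^ k := by rw [pow_add t (i + j) k]; group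
  have e3 : (t ^ i)⁻¹ * t ^ (i + j + k) = t ^ (j + k) := by
    rw [add_assoc, pow_add t i (j + k)]; group
  rw [e1, e2, e3] at h
  rcases le_total ((L.l (t ^ i) + L.l (t ^ (i + j)) - L.l (t ^ j)) / 2)
    ((L.l (t ^ (i + j)) + L.l (t ^ (i + j + k)) - L.l (t ^ k)) / 2) with h1 | h1
  · rw [min_eq_left h1] at h
    have := le_max_right (L.l (t ^ i) + L.l (t ^ k)) (L.l (t ^ (i + j + k)) + L.l (t ^ j))
    linarith
  · rw [min_eq_right h1] at h
    have := le_max_left (L.l (t ^ i) + L.l (t ^ k)) (L.l (t ^ (i + j + k)) + L.l (t ^ j))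
    linarith

variable {c : ℝ} (hc : 0 < c) (ht : ∀ n : ℕ, c * n ≤ L.l (t ^ n))

include hc ht in
theorem exists_jump : ∃ N : ℕ, 1 ≤ N ∧
    L.l (t ^ N) + (3 * L.δ + 1) ≤ L.l (t ^ (2 * N)) := by
  by_contra hne
  push Not at hne
  have h1 : ∀ k : ℕ, L.l (t ^ (2 ^ k)) ≤ L.l t + k * (3 * L.δ + 1) := by
    intro k
    induction k with
    | zero => simp
    | succ k ih =>
      have h2 := hne (2 ^ k) Nat.one_le_two_pow
      have e : 2 * 2 ^ k = 2 ^ (k + 1) := by rw [pow_succ]; ring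
      rw [e] at h2
      push_cast
      linarith
  -- growth
  set D : ℝ := 3 * L.δ + 1 with hD
  have hD0 : 0 < D := by have := L.δ_nonneg; linarith
  have hl0 := L.nonneg t
  -- choose k with c * 2 ^ k > l t + k D
  have h3 : ∀ k : ℕ, c * 2 ^ k ≤ L.l t + k * D := by
    intro k
    have := ht (2 ^ k)
    push_cast at this
    exact this.trans (h1 k)
  have h4 : Filter.Tendsto (fun n : ℕ => (n : ℝ) ^ 1 / 2 ^ n) Filter.atTop (nhds 0) :=
    tendsto_pow_const_div_const_pow_of_one_lt 1 (by norm_num)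
  have h5 : Filter.Tendsto (fun n : ℕ => (L.l t) * (1 / 2 : ℝ) ^ n + D * ((n : ℝ) ^ 1 / 2 ^ n))
      Filter.atTop (nhds (L.l t * 0 + D * 0)) :=
    ((tendsto_pow_atTop_nhds_zero_of_lt_one (by norm_num) (by norm_num)).const_mul _).add
      (h4.const_mul _)
  have h6 : ∀ n : ℕ, c ≤ (L.l t) * (1 / 2 : ℝ) ^ n + D * ((n : ℝ) ^ 1 / 2 ^ n) := by
    intro n
    have h7 := h3 n
    have h8 : (0 : ℝ) < 2 ^ n := by positivity
    have h9 : (L.l t) * (1 / 2 : ℝ) ^ n + D * ((n : ℝ) ^ 1 / 2 ^ n) =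
        (L.l t + n * D) / 2 ^ n := by
      rw [one_div, inv_pow]
      field_simp
    rw [h9, le_div_iff₀ h8]
    exact h7
  have h7 := ge_of_tendsto' h5 h6
  linarith

include hc ht in
/-- Almost additivity of the lengths of the powers of a loxodromic element. -/
theorem almost_add : ∃ E : ℝ, 0 ≤ E ∧ ∀ n m : ℕ,
    L.l (t ^ n) + L.l (t ^ m) ≤ L.l (t ^ (n + m)) + E := by
  obtain ⟨N, hN1, hN⟩ := L.exists_jump t hc ht
  set s := t ^ N with hs
  have e1 : ∀ k : ℕ, s ^ k = t ^ (N * k) := fun k => by rw [hs, pow_mul]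
  have hN' : L.l s + (3 * L.δ + 1) ≤ L.l (s ^ 2) := by
    rw [e1, mul_comm N 2]
    exact hN
  have hδ := L.δ_nonneg
  have hb1 : 3 * L.δ + 1 ≤ L.l s := by
    have := L.pow_le s 2
    push_cast at this
    linarith
  -- step 2
  have step : ∀ k : ℕ, L.l (s ^ k) + (L.δ + 1) ≤ L.l (s ^ (k + 1)) := by
    intro k
    induction k with
    | zero =>
      simp only [pow_zero, zero_add, pow_one, L.one]
      linarith
    | succ k ih =>
      have h := L.four s k 1 1
      rw [pow_one] at h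
      rcases max_cases (L.l (s ^ k) + L.l s) (L.l (s ^ (k + 1 + 1)) + L.l s) with ⟨h1, _⟩ | ⟨h1, _⟩
      · rw [h1] at h
        have e2 : (1 : ℕ) + 1 = 2 := rfl
        rw [e2] at h
        linarith
      · rw [h1] at h
        have e2 : (1 : ℕ) + 1 = 2 := rfl
        rw [show L.l (s ^ (1 + 1)) = L.l (s ^ 2) from rfl] at h
        linarith
  have hmono : ∀ i k : ℕ, L.l (s ^ i) + L.l (s ^ k) ≤
      L.l (s ^ (i + k)) + (2 * L.l s + 2 * L.δ) := by
    intro i k
    have h := L.four s i 1 k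
    rw [pow_one] at h
    have h1 := step i
    have h2 := step k
    have e3 : 1 + k = k + 1 := by ring
    have e4 : i + 1 + k = i + k + 1 := by ring
    rw [e3, e4] at h
    have h5 : L.l (s ^ (i + k + 1)) ≤ L.l (s ^ (i + k)) + L.l s := by
      rw [pow_succ]
      exact L.mul_le _ _
    rcases max_cases (L.l (s ^ i) + L.l (s ^ k)) (L.l (s ^ (i + k + 1)) + L.l s) with
      ⟨h3, _⟩ | ⟨h3, _⟩
    · rw [h3] at h
      linarith
    · rw [h3] at h
      linarith
  have hA : 0 ≤ L.l t := L.nonneg t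
  refine ⟨4 * N * L.l t + 2 * L.l s + 2 * L.δ, by
    have : 0 ≤ 4 * (N : ℝ) * L.l t := by positivity
    have := L.nonneg s
    linarith, fun n m => ?_⟩
  have hNpos : 0 < N := by omega
  have hr : ∀ n : ℕ, L.l (t ^ n) ≤ L.l (s ^ (n / N)) + N * L.l t := by
    intro n
    have h1 : t ^ n = s ^ (n / N) * t ^ (n % N) := by
      rw [e1, ← pow_add, Nat.div_add_mod]
    have h2 : (n % N : ℕ) ≤ N := (Nat.mod_lt _ hNpos).le
    have h3 : ((n % N : ℕ) : ℝ) ≤ N := by exact_mod_cast h2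
    have h4 : L.l (t ^ (n % N)) ≤ N * L.l t :=
      (L.pow_le t _).trans (mul_le_mul_of_nonneg_right h3 hA)
    rw [h1]
    have := L.mul_le (s ^ (n / N)) (t ^ (n % N))
    linarith
  have h1 := hr n
  have h2 := hr m
  have h3 := hmono (n / N) (m / N)
  have h4 : L.l (s ^ (n / N + m / N)) ≤ L.l (t ^ (n + m)) + 2 * N * L.l t := by
    have h5 : t ^ (n + m) = s ^ (n / N + m / N) * t ^ (n % N + m % N) := by
      rw [e1, ← pow_add]
      congr 1
      have h6 := Nat.div_add_mod n N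
      have h7 := Nat.div_add_mod m N
      rw [mul_add]
      omega
    have h6 := L.l_mul_ge (s ^ (n / N + m / N)) (t ^ (n % N + m % N))
    rw [← h5] at h6
    have h7 : (n % N + m % N : ℕ) ≤ 2 * N := by
      have := (Nat.mod_lt n hNpos).le
      have := (Nat.mod_lt m hNpos).le
      omega
    have h8 : ((n % N + m % N : ℕ) : ℝ) ≤ 2 * N := by exact_mod_cast h7
    have h9 : L.l (t ^ (n % N + m % N)) ≤ 2 * N * L.l t :=
      (L.pow_le t _).trans (mul_le_mul_of_nonneg_right h8 hA)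
    linarith
  linarith

end Four

end HLen

end Pool.Agent.N68.QP
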