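import Pool.Agent.N68.QP.Grp
import Pool.Agent.N68.QP.HLen

set_option autoImplicit false

/-! Hyperbolic length functions on the group of permutations of `ℤ` which are translations near
`-∞`: either the kernel of the translation length is bounded, or the length function is equivalent
to the one of the Bass-Serre tree. -/

namespace Pool.Agent.N68.QP

open Equiv Pool.Agent.R640

/-- A hyperbolic length function with constants. -/
structure Dat where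
  L : HLen Gz
  C : ℝ
  C0 : 0 ≤ C
  hC : ∀ g ∈ Bz, L.l g ≤ C
  c : ℝ
  c0 : 0 < c
  ht : ∀ n : ℕ, c * n ≤ L.l (tz ^ n)
  E : ℝ
  E0 : 0 ≤ E
  hE : ∀ n m : ℕ, L.l (tz ^ n) + L.l (tz ^ m) ≤ L.l (tz ^ (n + m)) + E

namespace Dat

variable (D : Dat)

/-- The length of the power of `t`. -/
noncomputable def a (n : ℕ) : ℝ := D.L.l (tz ^ n)

theorem a_nonneg (n : ℕ) : 0 ≤ D.a n := D.L.nonneg _

theorem a_ge (n : ℕ) : D.c * n ≤ D.a n := D.ht n

theorem a_add (n m : ℕ) : D.a n + D.a m ≤ D.a (n + m) + D.E := D.hE n m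

theorem a_sub {n m : ℕ} (h : n ≤ m) : D.a n + D.a (m - n) ≤ D.a m + D.E := by
  have := D.a_add n (m - n)
  rwa [Nat.add_sub_cancel' h] at this

theorem gp_t {n m : ℕ} (h : n ≤ m) : D.a n - D.E / 2 ≤ D.L.gp (tz ^ n) (tz ^ m) := by
  unfold HLen.gp
  have e : (tz ^ n)⁻¹ * tz ^ m = tz ^ (m - n) := by
    rw [inv_mul_eq_iff_eq_mul, ← pow_add, Nat.add_sub_cancel' h]
  rw [e]
  have := D.a_sub h
  unfold a at this ⊢
  linarith

theorem gp_t' {n m : ℕ} (h : n ≤ m) : D.a n - D.E / 2 ≤ D.L.gp (tz ^ m) (tz ^ n) := by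
  rw [D.L.gp_comm]
  exact D.gp_t h

/-- The points `t ^ a` and `κ t ^ b` stay together at least up to `R`. -/
def P (κ : Gz) (R : ℝ) : Prop :=
  ∃ N : ℕ, ∀ a b : ℕ, N ≤ a → N ≤ b → R ≤ D.L.gp (tz ^ a) (κ * tz ^ b)

theorem P_mono {κ : Gz} {R R' : ℝ} (h : D.P κ R) (hR : R' ≤ R) : D.P κ R' := by
  obtain ⟨N, hN⟩ := h
  exact ⟨N, fun a b ha hb => hR.trans (hN a b ha hb)⟩

theorem l_B_mul {κ : Gz} (hκ : κ ∈ Bz) (g : Gz) : D.L.l g - D.C ≤ D.L.l (κ * g) := by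
  have := D.L.l_mul_ge' κ g
  have := D.hC κ hκ
  linarith

theorem l_B_mul' {κ : Gz} (hκ : κ ∈ Bz) (g : Gz) : D.L.l (κ * g) ≤ D.L.l g + D.C := by
  have := D.L.mul_le κ g
  have := D.hC κ hκ
  linarith

/-- Stability. -/
theorem P_of_gp {κ : Gz} (hκ : κ ∈ Bz) {R : ℝ} {a b : ℕ}
    (h : R + (D.E + 2 * D.C + 2 * D.L.δ) ≤ D.L.gp (tz ^ a) (κ * tz ^ b)) : D.P κ R := by
  refine ⟨max a b, fun a' b' ha hb => ?_⟩
  have ha' : a ≤ a' := (le_max_left _ _).trans ha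
  have hb' : b ≤ b' := (le_max_right _ _).trans hb
  have hδ := D.L.δ_nonneg
  have hE := D.E0
  have hC := D.C0
  have h1 := D.gp_t' ha'
  have h2 : D.L.gp (tz ^ a) (κ * tz ^ b) ≤ D.a a := D.L.gp_le_left _ _
  have h3 : D.L.gp (tz ^ a) (κ * tz ^ b) ≤ D.a b + D.C :=
    (D.L.gp_le_right _ _).trans (D.l_B_mul' hκ _)
  have h4 : D.a b - D.E / 2 - D.C ≤ D.L.gp (κ * tz ^ b) (κ * tz ^ b') := by
    have h5 := D.L.gp_mul_left κ (tz ^ b) (tz ^ b')
    have h6 := D.gp_t hb'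
    have := D.hC κ hκ
    linarith
  have h5 : R + D.L.δ ≤ D.L.gp (tz ^ a) (κ * tz ^ b') := by
    have := D.L.gp_hyp' (R := R + 2 * D.L.δ) (x := tz ^ a) (y := κ * tz ^ b)
      (z := κ * tz ^ b') (by linarith) (by linarith)
    linarith
  have := D.L.gp_hyp' (R := R + D.L.δ) (x := tz ^ a') (y := tz ^ a)
      (z := κ * tz ^ b') (by linarith) h5
  linarith

/-- The first constant. -/
noncomputable def c1 : ℝ := D.E + D.C

/-- The second constant. -/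
noncomputable def c2 : ℝ := D.C + D.L.δ

theorem c1_nonneg : 0 ≤ D.c1 := by
  have := D.E0; have := D.C0; unfold c1; linarith

theorem c2_nonneg : 0 ≤ D.c2 := by
  have := D.L.δ_nonneg; have := D.C0; unfold c2; linarith

theorem P_deep {κ : Gz} (hκ : κ ∈ Bz) (n : ℕ) (h : (tz ^ n)⁻¹ * κ * tz ^ n ∈ Bz) :
    D.P κ (D.a n - D.c1) := by
  refine ⟨n, fun a b ha hb => ?_⟩
  unfold HLen.gp
  have e : (tz ^ a)⁻¹ * (κ * tz ^ b) =
      (tz ^ (a - n))⁻¹ * (((tz ^ n)⁻¹ * κ * tz ^ n) * tz ^ (b - n)) := by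
    have e1 : tz ^ a = tz ^ n * tz ^ (a - n) := by rw [← pow_add, Nat.add_sub_cancel' ha]
    have e2 : tz ^ b = tz ^ n * tz ^ (b - n) := by rw [← pow_add, Nat.add_sub_cancel' hb]
    rw [e1, e2]
    group
  rw [e]
  have h1 := D.L.mul_le (tz ^ (a - n))⁻¹ (((tz ^ n)⁻¹ * κ * tz ^ n) * tz ^ (b - n))
  rw [D.L.inv] at h1
  have h2 := D.l_B_mul' h (tz ^ (b - n))
  have h3 := D.l_B_mul hκ (tz ^ b)
  have h4 := D.a_sub ha
  have h5 := D.a_sub hb
  unfold c1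
  unfold Dat.a at h4 h5 ⊢
  linarith

theorem P_mul {κ κ' : Gz} (hκ : κ ∈ Bz) {R : ℝ} (h : D.P κ R) (h' : D.P κ' R) :
    D.P (κ * κ') (R - D.c2) := by
  obtain ⟨N, hN⟩ := h
  obtain ⟨N', hN'⟩ := h'
  refine ⟨max N N', fun a b ha hb => ?_⟩
  have h1 := hN a (max N N') ((le_max_left _ _).trans ha) (le_max_left _ _)
  have h2 := hN' (max N N') b (le_max_right _ _) ((le_max_right _ _).trans hb)
  have h3 := D.L.gp_mul_left κ (tz ^ (max N N')) (κ' * tz ^ b)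
  have h4 := D.hC κ hκ
  have h5 := D.C0
  have := D.L.gp_hyp' (R := R - D.C) (x := tz ^ a) (y := κ * tz ^ (max N N'))
    (z := κ * (κ' * tz ^ b)) (by linarith) (by linarith)
  rw [mul_assoc]
  unfold c2
  linarith

theorem P_mul3 {x y z : Gz} (hx : x ∈ Bz) (hy : y ∈ Bz) {R : ℝ} (h1 : D.P x R) (h2 : D.P y R)
    (h3 : D.P z R) : D.P (x * y * z) (R - 2 * D.c2) := by
  have h4 := D.P_mul hx h1 h2
  have h5 := D.P_mul (Bz.mul_mem hx hy) h4
    (D.P_mono h3 (by have := D.c2_nonneg; linarith : R - D.c2 ≤ R))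
  exact D.P_mono h5 (by linarith)

theorem P_inv {κ : Gz} (hκ : κ ∈ Bz) {R : ℝ} (h : D.P κ R) : D.P κ⁻¹ (R - D.C) := by
  obtain ⟨N, hN⟩ := h
  refine ⟨N, fun a b ha hb => ?_⟩
  have h1 := hN b a hb ha
  unfold HLen.gp at h1 ⊢
  have e : (tz ^ b)⁻¹ * (κ * tz ^ a) = ((tz ^ a)⁻¹ * (κ⁻¹ * tz ^ b))⁻¹ := by group
  rw [e, D.L.inv] at h1
  have h2 := D.l_B_mul' hκ (tz ^ a)
  have h3 := D.l_B_mul (Bz.inv_mem hκ) (tz ^ b)
  linarith

theorem P_conj {κ : Gz} (hκ : κ ∈ Bz) (n : ℕ) {R : ℝ} (h : D.P κ R) :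
    D.P (tz ^ n * κ * (tz ^ n)⁻¹) (R - D.c1) := by
  obtain ⟨N, hN⟩ := h
  refine ⟨N + n, fun a b ha hb => ?_⟩
  have h1 := hN (a - n) (b - n) (by omega) (by omega)
  have hκ' := conj_mem hκ n
  unfold HLen.gp at h1 ⊢
  have e : (tz ^ a)⁻¹ * (tz ^ n * κ * (tz ^ n)⁻¹ * tz ^ b) =
      (tz ^ (a - n))⁻¹ * (κ * tz ^ (b - n)) := by
    have e1 : tz ^ a = tz ^ n * tz ^ (a - n) := by
      rw [← pow_add, Nat.add_sub_cancel' (by omega)]
    have e2 : tz ^ b = tz ^ n * tz ^ (b - n) := by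
      rw [← pow_add, Nat.add_sub_cancel' (by omega)]
    rw [e1, e2]
    group
  rw [e]
  have h2 := D.l_B_mul' hκ (tz ^ (b - n))
  have h3 := D.l_B_mul hκ' (tz ^ b)
  have h4 := D.a_sub (n := n) (m := a) (by omega)
  have h5 := D.a_sub (n := n) (m := b) (by omega)
  have h6 := D.a_nonneg n
  unfold c1
  unfold Dat.a at h4 h5 h6
  linarith

/-- If all elements of `B` stay together with the ray then the kernel is bounded. -/
theorem bounded_of_P (h : ∀ κ ∈ Bz, ∀ R, D.P κ R) :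
    ∃ C₁ : ℝ, ∀ κ ∈ Bz, ∀ n : ℕ, D.L.l ((tz ^ n)⁻¹ * κ * tz ^ n) ≤ C₁ := by
  refine ⟨D.E + 3 * D.C + 4 * D.L.δ, fun κ hκ n => ?_⟩
  obtain ⟨N, hN⟩ := h κ hκ (D.a n)
  set m := max N n
  have h1 := hN m m (le_max_left _ _) (le_max_left _ _)
  have h2 := D.gp_t (n := n) (m := m) (le_max_right _ _)
  have h3 := D.gp_t' (n := n) (m := m) (le_max_right _ _)
  have h4 := D.L.gp_mul_left κ (tz ^ m) (tz ^ n)
  have h5 := D.hC κ hκ
  have hδ := D.L.δ_nonneg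
  have hE := D.E0
  have hC := D.C0
  have h6 := D.L.gp_hyp' (R := D.a n - D.E / 2 - D.C) (x := tz ^ m) (y := κ * tz ^ m)
    (z := κ * tz ^ n) (by linarith) (by linarith)
  have h7 := D.L.gp_hyp' (R := D.a n - D.E / 2 - D.C - D.L.δ) (x := tz ^ n) (y := tz ^ m)
    (z := κ * tz ^ n) (by linarith) (by linarith)
  have h8 := D.L.l_inv_mul (tz ^ n) (κ * tz ^ n)
  have h9 := D.l_B_mul' hκ (tz ^ n)
  rw [← mul_assoc] at h8
  rw [h8]
  unfold a at h7
  linarith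

theorem exists_a_ge (R : ℝ) : ∃ n₀ : ℕ, ∀ n, n₀ ≤ n → R ≤ D.a n := by
  obtain ⟨n₀, h⟩ := exists_nat_ge (R / D.c)
  refine ⟨n₀, fun n hn => ?_⟩
  have h1 := D.a_ge n
  have h2 : (n₀ : ℝ) ≤ n := by exact_mod_cast hn
  have h3 : R / D.c ≤ n := h.trans h2
  rw [div_le_iff₀ D.c0] at h3
  linarith

section Comb

/-- Transpositions move together. -/
theorem tr_deep {x y : ℤ} {n : ℕ} (hx : (n : ℤ) ≤ x) (hy : (n : ℤ) ≤ y) :
    D.P (tr x y) (D.a n - D.c1) := by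
  apply D.P_deep (tr_mem (by omega) (by omega))
  have h := tr_conj n (x - n) (y - n)
  rw [sub_add_cancel, sub_add_cancel] at h
  rw [← h]
  have e : (tz ^ n)⁻¹ * (tz ^ n * tr (x - n) (y - n) * (tz ^ n)⁻¹) * tz ^ n =
      tr (x - n) (y - n) := by group
  rw [e]
  exact tr_mem (by omega) (by omega)

theorem tr_shift {x y : ℤ} (hx : 0 ≤ x) (hy : 0 ≤ y) (n : ℕ) {R : ℝ} (h : D.P (tr x y) R) :
    D.P (tr (x + n) (y + n)) (R - D.c1) := by
  rw [← tr_conj]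
  exact D.P_conj (tr_mem hx hy) n h

theorem tr_comb {x y z : ℤ} (hx : 0 ≤ x) (hy : 0 ≤ y) (hz : 0 ≤ z) (hxy : x ≠ y) (hxz : x ≠ z)
    (hyz : y ≠ z) {R : ℝ} (h1 : D.P (tr x z) R) (h2 : D.P (tr y z) R) :
    D.P (tr x y) (R - 2 * D.c2) := by
  rw [← tr_tr_tr hxy hxz hyz]
  exact D.P_mul3 (tr_mem hx hz) (tr_mem hy hz) h1 h2 h1

theorem tr_double {d : ℕ} (hd : 1 ≤ d) {R : ℝ} (h : D.P (tr 0 d) R) (j : ℕ) :
    D.P (tr 0 (2 ^ j * d : ℕ)) (R - j * (D.c1 + 2 * D.c2)) := by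
  induction j with
  | zero =>
    simpa using h
  | succ j ih =>
    set x : ℕ := 2 ^ j * d with hx
    have hx1 : 1 ≤ x := Nat.one_le_iff_ne_zero.2 (by positivity)
    have h1 := D.tr_shift le_rfl (Int.natCast_nonneg x) x ih
    rw [zero_add] at h1
    have h2 : D.P (tr 0 (x : ℤ)) (R - j * (D.c1 + 2 * D.c2) - D.c1) :=
      D.P_mono ih (by have := D.c1_nonneg; linarith)
    have e : ((2 ^ (j + 1) * d : ℕ) : ℤ) = x + x := by
      rw [hx]
      push_cast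
      ring
    rw [e]
    rw [tr_comm] at h1
    have h3 := D.tr_comb (x := 0) (y := (x : ℤ) + x) (z := x) le_rfl (by omega) (by omega)
      (by omega) (by omega) (by omega) h2 h1
    exact D.P_mono h3 (by push_cast; linarith)

/-- If `(0 d)` can be arbitrarily deep then everything is infinitely deep. -/
theorem tr_all (hU : ∀ F : ℝ, ∃ d : ℕ, 1 ≤ d ∧ D.P (tr 0 d) F) :
    ∀ e : ℕ, 1 ≤ e → D.P (tr 0 e) (D.a e - (D.c1 + 2 * D.c2)) := by
  intro e he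
  obtain ⟨d, hd, hP⟩ := hU (D.a e + e * (D.c1 + 2 * D.c2))
  have h1 := D.tr_double hd hP e
  set z : ℕ := 2 ^ e * d with hz
  have hz1 : e < z := by
    calc e < 2 ^ e := Nat.lt_two_pow_self
      _ ≤ 2 ^ e * d := Nat.le_mul_of_pos_right _ hd
  have h2 : D.P (tr 0 z) (D.a e - D.c1) :=
    D.P_mono h1 (by have := D.c1_nonneg; linarith)
  have h3 : D.P (tr e z) (D.a e - D.c1) := D.tr_deep le_rfl (by omega)
  have h4 := D.tr_comb (x := 0) (y := e) (z := z) le_rfl (by omega) (by omega) (by omega)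
    (by omega) (by omega) h2 h3
  exact D.P_mono h4 (by linarith)

theorem tr_inf (hU : ∀ F : ℝ, ∃ d : ℕ, 1 ≤ d ∧ D.P (tr 0 d) F) {x y : ℕ} (hxy : x ≠ y) (R : ℝ) :
    D.P (tr x y) R := by
  obtain ⟨n₀, hn₀⟩ := D.exists_a_ge (R + 2 * D.c2 + (D.c1 + 2 * D.c2) + D.c1)
  set z : ℕ := n₀ + x + y + 1 with hz
  have key : ∀ w : ℕ, w ≤ x + y → D.P (tr w z) (R + 2 * D.c2) := by
    intro w hw
    have h1 := D.tr_all hU (z - w) (by omega)
    have h2 := D.tr_shift le_rfl (Int.natCast_nonneg (z - w)) w h1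
    have e : ((z - w : ℕ) : ℤ) + w = z := by omega
    rw [zero_add, e] at h2
    have h3 := hn₀ (z - w) (by omega)
    exact D.P_mono h2 (by linarith)
  have h4 := D.tr_comb (x := x) (y := y) (z := z) (by omega) (by omega) (by omega) (by omega)
    (by omega) (by omega) (key x (by omega)) (key y (by omega))
  exact D.P_mono h4 (by linarith)

theorem P_one (R : ℝ) : D.P 1 R := by
  obtain ⟨n₀, hn₀⟩ := D.exists_a_ge (R + D.c1)
  have h1 := D.P_deep Bz.one_mem n₀ (by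
    rw [mul_one, inv_mul_cancel]
    exact Bz.one_mem)
  exact D.P_mono h1 (by have := hn₀ n₀ le_rfl; linarith)

theorem all_inf (hU : ∀ F : ℝ, ∃ d : ℕ, 1 ≤ d ∧ D.P (tr 0 d) F) :
    ∀ κ ∈ Bz, ∀ R, D.P κ R := by
  have key : ∀ (κ : Gz), κ ∈ Bz → ∀ n : ℕ, ∃ f ∈ Bz, (∀ R, D.P f R) ∧
      ∀ i : ℤ, i < n → ((f * κ : Gz) : Perm ℤ) i = i := by
    intro κ hκ n
    induction n with
    | zero => exact ⟨1, Bz.one_mem, D.P_one, fun i hi => by rw [one_mul]; exact hκ i (by omega)⟩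
    | succ n ih =>
      obtain ⟨f, hf, hP, hfix⟩ := ih
      set x : ℤ := ((f * κ : Gz) : Perm ℤ) n with hx
      have hxn : (n : ℤ) ≤ x := by
        by_contra h
        push Not at h
        have h1 := hfix x h
        have h2 := ((f * κ : Gz) : Perm ℤ).injective (h1.trans hx)
        omega
      rcases eq_or_ne x n with h | h
      · refine ⟨f, hf, hP, fun i hi => ?_⟩
        push_cast at hi
        rcases lt_or_eq_of_le (Int.lt_add_one_iff.1 hi) with h1 | h1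
        · exact hfix i h1
        · rw [h1]
          exact h
      · have hxx : ((x.toNat : ℕ) : ℤ) = x := by omega
        refine ⟨tr n x * f, Bz.mul_mem (tr_mem (by omega) (by omega)) hf, fun R => ?_,
          fun i hi => ?_⟩
        · have h1 := D.tr_inf hU (x := n) (y := x.toNat) (by omega) (R + D.c2)
          rw [hxx] at h1
          have h2 := D.P_mul (tr_mem (by omega) (by omega)) h1 (hP (R + D.c2))
          exact D.P_mono h2 (by linarith)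
        · push_cast at hi
          rw [mul_assoc, Subgroup.coe_mul, Perm.mul_apply]
          rcases lt_or_eq_of_le (Int.lt_add_one_iff.1 hi) with h1 | h1
          · rw [hfix i h1, tr_coe, swap_apply_of_ne_of_ne (by omega) (by omega)]
          · rw [h1, ← hx, tr_coe, swap_apply_right]
  intro κ hκ R
  obtain ⟨n, hn⟩ := D.exists_a_ge (R + D.c1 + D.c2)
  obtain ⟨f, hf, hP, hfix⟩ := key κ hκ n
  have h1 : D.P (f * κ) (D.a n - D.c1) := by
    apply D.P_deep (Bz.mul_mem hf hκ)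
    intro i hi
    rw [conj_apply', hfix _ (by omega)]
    ring
  have h2 : D.P (f * κ) (R + D.c2) := D.P_mono h1 (by have := hn n le_rfl; linarith)
  have h3 : D.P f⁻¹ (R + D.c2) :=
    D.P_mono (D.P_inv hf (hP (R + D.c2 + D.C))) (by linarith)
  have h4 := D.P_mul (Bz.inv_mem hf) h3 h2
  rw [inv_mul_cancel_left] at h4
  exact D.P_mono h4 (by linarith)

/-- The displacement of `0` is bounded for deep elements. -/
theorem disp {F₀ : ℝ} (hF : ∀ d : ℕ, 1 ≤ d → ¬ D.P (tr 0 d) F₀) {κ : Gz} (hκ : κ ∈ Bz) {x : ℕ}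
    (hx : 1 ≤ x) (h0 : (κ : Perm ℤ) 0 = x) (hP : D.P κ (F₀ + D.C + 2 * D.c2)) :
    D.a x < F₀ + D.c1 + 2 * D.c2 := by
  by_contra hlt
  push Not at hlt
  set y : ℤ := ((κ⁻¹ : Gz) : Perm ℤ) (x + 1) with hy
  have hκy : (κ : Perm ℤ) y = x + 1 := by
    rw [hy, Subgroup.coe_inv]
    exact (κ : Perm ℤ).apply_symm_apply _
  have hy0 : 0 ≤ y := by
    rw [hy]
    exact Bz_nonneg (Bz.inv_mem hκ) (by omega)
  have hy1 : y ≠ 0 := by
    intro h
    rw [h, h0] at hκy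
    omega
  have e : κ⁻¹ * tr x (x + 1) * κ = tr 0 y := by
    apply Subtype.ext
    apply Equiv.ext
    intro i
    rw [Subgroup.coe_mul, Perm.mul_apply, Subgroup.coe_mul, Perm.mul_apply, Subgroup.coe_inv,
      Perm.inv_eq_iff_eq, tr_coe, tr_coe]
    by_cases h1 : i = 0
    · rw [h1, h0, swap_apply_left, swap_apply_left, hκy]
    · by_cases h2 : i = y
      · rw [h2, hκy, swap_apply_right, swap_apply_right, h0]
      · rw [swap_apply_of_ne_of_ne h1 h2, swap_apply_of_ne_of_ne]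
        · rw [← h0]
          exact fun h => h1 ((κ : Perm ℤ).injective h)
        · rw [← hκy]
          exact fun h => h2 ((κ : Perm ℤ).injective h)
  have hc2 := D.c2_nonneg
  have h1 : D.P κ⁻¹ (F₀ + 2 * D.c2) := D.P_mono (D.P_inv hκ hP) (by linarith)
  have h2 : D.P (tr (x : ℤ) (x + 1)) (F₀ + 2 * D.c2) :=
    D.P_mono (D.tr_deep (x := x) (y := x + 1) (n := x) le_rfl (by omega)) (by linarith)
  have h3 : D.P κ (F₀ + 2 * D.c2) := D.P_mono hP (by have := D.C0; linarith)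
  have h4 := D.P_mul3 (Bz.inv_mem hκ) (tr_mem (by omega) (by omega)) h1 h2 h3
  rw [e] at h4
  have hyy : ((y.toNat : ℕ) : ℤ) = y := by omega
  apply hF y.toNat (by omega)
  rw [hyy]
  exact D.P_mono h4 (by linarith)

theorem iterate {κ : Gz} (hκ : κ ∈ Bz) {x : ℕ} (h0 : (κ : Perm ℤ) 0 = x) {R : ℝ}
    (hP : D.P κ R) (j : ℕ) :
    ∃ κ' ∈ Bz, (κ' : Perm ℤ) 0 = (2 ^ j * x : ℕ) ∧ D.P κ' (R - j * (D.c1 + D.c2)) := by
  induction j with
  | zero => exact ⟨κ, hκ, by simpa using h0, by simpa using hP⟩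
  | succ j ih =>
    obtain ⟨κ', hκ', h0', hP'⟩ := ih
    set X : ℕ := 2 ^ j * x
    refine ⟨tz ^ X * κ' * (tz ^ X)⁻¹ * κ', Bz.mul_mem (conj_mem hκ' X) hκ', ?_, ?_⟩
    · rw [Subgroup.coe_mul, Perm.mul_apply, h0', conj_apply, sub_self, h0']
      simp only [X]
      push_cast
      ring
    · have h1 := D.P_conj hκ' X hP'
      have h2 := D.P_mul (conj_mem hκ' X) h1
        (D.P_mono hP' (by have := D.c1_nonneg; linarith :
          R - j * (D.c1 + D.c2) - D.c1 ≤ R - j * (D.c1 + D.c2)))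
      exact D.P_mono h2 (by push_cast; linarith)

/-- The dichotomy. -/
theorem dichotomy : (∃ C₁ : ℝ, ∀ κ ∈ Bz, ∀ n : ℕ, D.L.l ((tz ^ n)⁻¹ * κ * tz ^ n) ≤ C₁) ∨
    ∃ R₀ : ℝ, ∀ κ ∈ Bz, (κ : Perm ℤ) 0 ≠ 0 → ∀ a b : ℕ,
      D.L.gp (tz ^ a) (κ * tz ^ b) ≤ R₀ := by
  by_cases hU : ∀ F : ℝ, ∃ d : ℕ, 1 ≤ d ∧ D.P (tr 0 d) F
  · exact Or.inl (D.bounded_of_P (D.all_inf hU))
  · right
    push Not at hU
    obtain ⟨F₀, hF⟩ := hU
    obtain ⟨j, hj⟩ := exists_nat_ge ((F₀ + D.c1 + 2 * D.c2) / D.c)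
    have hj2 : (j : ℝ) ≤ 2 ^ j := by
      have : j ≤ 2 ^ j := Nat.lt_two_pow_self.le
      exact_mod_cast this
    refine ⟨(F₀ + D.C + 2 * D.c2 + j * (D.c1 + D.c2)) + (D.E + 2 * D.C + 2 * D.L.δ),
      fun κ hκ h0 a b => ?_⟩
    by_contra hlt
    push Not at hlt
    have hP := D.P_of_gp hκ hlt.le
    have hx0 := Bz_nonneg hκ (le_refl 0)
    set x : ℕ := ((κ : Perm ℤ) 0).toNat with hx
    have hxx : (κ : Perm ℤ) 0 = x := by omega
    obtain ⟨κ', hκ', h1, h2⟩ := D.iterate hκ hxx hP j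
    have hx1 : 1 ≤ x := by omega
    have h3 : 1 ≤ 2 ^ j * x := Nat.one_le_iff_ne_zero.2 (by positivity)
    have h4 := D.disp hF hκ' h3 h1 (D.P_mono h2 (by linarith))
    have h5 := D.a_ge (2 ^ j * x)
    have h6 : ((2 : ℝ) ^ j) ≤ ((2 ^ j * x : ℕ) : ℝ) := by
      have : 2 ^ j ≤ 2 ^ j * x := Nat.le_mul_of_pos_right _ hx1
      exact_mod_cast this
    rw [div_le_iff₀ D.c0] at hj
    have h7 : (j : ℝ) * D.c ≤ D.c * ((2 ^ j * x : ℕ) : ℝ) := by
      rw [mul_comm]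
      exact mul_le_mul_of_nonneg_left (hj2.trans h6) D.c0.le
    linarith

end Comb

end Dat

end Pool.Agent.N68.QP
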